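import Pool.Agent.Q215.WR.Stm

/-!
The extension property of generic presentations.
-/

set_option autoImplicit false

open Set Topology Filter

namespace Pool.Agent.Q215.WR

variable {S N D : Set ℝ} {F : ℕ → Set ℝ}

lemma gen_mono (hG : Gen S N D F) : Monotone F := monotone_nat_of_le_succ hG.mono

lemma sub_prev (hG : Gen S N D F) {m b : ℕ} (h : m < b) : F m ⊆ prev F b := by
  cases b with
  | zero => exact absurd h (Nat.not_lt_zero _)
  | succ b => exact gen_mono hG (Nat.lt_succ_iff.1 h)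

lemma three_right {M : Set ℝ} {x y : ℝ} (hxy : x < y)
    (h : ∀ ε : ℝ, 0 < ε → ∃ z ∈ M, x < z ∧ z < x + ε) :
    ∃ z1 z2 z3 : ℝ, z1 < z2 ∧ z2 < z3 ∧ x < z1 ∧ z3 < y ∧ z1 ∈ M ∧ z2 ∈ M ∧ z3 ∈ M := by
  obtain ⟨z3, m3, a3, b3⟩ := h (y - x) (by linarith)
  obtain ⟨z2, m2, a2, b2⟩ := h (z3 - x) (by linarith)
  obtain ⟨z1, m1, a1, b1⟩ := h (z2 - x) (by linarith)
  exact ⟨z1, z2, z3, by linarith, by linarith, a1, by linarith, m1, m2, m3⟩

lemma three_left {M : Set ℝ} {x y : ℝ} (hxy : y < x)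
    (h : ∀ ε : ℝ, 0 < ε → ∃ z ∈ M, x - ε < z ∧ z < x) :
    ∃ z1 z2 z3 : ℝ, z1 < z2 ∧ z2 < z3 ∧ y < z1 ∧ z3 < x ∧ z1 ∈ M ∧ z2 ∈ M ∧ z3 ∈ M := by
  obtain ⟨z1, m1, a1, b1⟩ := h (x - y) (by linarith)
  obtain ⟨z2, m2, a2, b2⟩ := h (x - z1) (by linarith)
  obtain ⟨z3, m3, a3, b3⟩ := h (x - z2) (by linarith)
  exact ⟨z1, z2, z3, by linarith, by linarith, by linarith, b3, m1, m2, m3⟩

lemma lim_side {M : Set ℝ} {x : ℝ} (h : Lim M x) :
    (∀ ε : ℝ, 0 < ε → ∃ z ∈ M, x < z ∧ z < x + ε) ∨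
      ∀ ε : ℝ, 0 < ε → ∃ z ∈ M, x - ε < z ∧ z < x := by
  by_contra hcon
  rw [not_or] at hcon
  obtain ⟨h1, h2⟩ := hcon
  push Not at h1 h2
  obtain ⟨e1, he1, h1⟩ := h1
  obtain ⟨e2, he2, h2⟩ := h2
  obtain ⟨z, hz, hne, hd⟩ := h (min e1 e2) (lt_min he1 he2)
  rw [abs_lt] at hd
  have m1 := min_le_left e1 e2
  have m2 := min_le_right e1 e2
  rcases lt_or_gt_of_ne hne with hlt | hgt
  · have := h2 z hz (by linarith [hd.1])
    linarith
  · have := h1 z hz hgt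
    linarith [hd.2]

lemma three_points (hG : Gen S N D F) {g h : EReal} {a b : ℕ} (hab : a ≤ b)
    (hgh : g < h) (hm : ∀ m, Meets (F m) g h ↔ a ≤ m) (hT : h = ⊤ → b = 0)
    (hh : ∀ m, ∀ x ∈ F m, (x : EReal) = h → b ≤ m) :
    ∃ z1 z2 z3 : ℝ, z1 < z2 ∧ z2 < z3 ∧ g < (z1 : EReal) ∧ (z3 : EReal) < h ∧
      z1 ∈ N ∩ (F b \ prev F b) ∧ z2 ∈ N ∩ (F b \ prev F b) ∧ z3 ∈ N ∩ (F b \ prev F b) ∧
      (∀ y ∈ prev F b, ¬ (z1 < y ∧ (y : EReal) < h)) ∧ ∃ y ∈ F a, g < (y : EReal) ∧ y ≤ z1 := by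
  rcases hab.lt_or_eq with hlt | rfl
  · obtain ⟨b', rfl⟩ : ∃ b', b = b' + 1 := ⟨b - 1, by omega⟩
    have hnT : h ≠ ⊤ := fun e => absurd (hT e) (by omega)
    have hnB : h ≠ ⊥ := (bot_le.trans_lt hgh).ne'
    lift h to ℝ using ⟨hnT, hnB⟩
    have hne : ∃ x ∈ F b', g < (x : EReal) ∧ (x : EReal) < (h : EReal) := (hm b').2 (by omega)
    set W : Set ℝ := {x | x ∈ F b' ∧ g < (x : EReal) ∧ x < h} with hW
    have hWne : W.Nonempty := by
      obtain ⟨x, h1, h2, h3⟩ := hne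
      exact ⟨x, h1, h2, EReal.coe_lt_coe_iff.1 h3⟩
    have hWb : BddAbove W := ⟨h, fun x hx => hx.2.2.le⟩
    have hsup : sSup W ∈ F b' := by
      have h1 := csSup_mem_closure hWne hWb
      exact (closure_minimal (fun x hx => hx.1) (hG.closed b')) h1
    have hgs : g < ((sSup W : ℝ) : EReal) := by
      obtain ⟨w, hw⟩ := hWne
      exact lt_of_lt_of_le hw.2.1 (EReal.coe_le_coe_iff.2 (le_csSup hWb hw))
    have hsh : sSup W < h := by
      refine lt_of_le_of_ne (csSup_le hWne fun x hx => hx.2.2.le) fun e => ?_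
      have := hh b' _ hsup (by rw [e])
      omega
    obtain ⟨z1, z2, z3, h12, h23, hx1, h3, m1, m2, m3⟩ :=
      three_right hsh fun ε hε => (hG.two b' _ hsup ε hε).2
    refine ⟨z1, z2, z3, h12, h23, hgs.trans (EReal.coe_lt_coe_iff.2 hx1),
      EReal.coe_lt_coe_iff.2 h3, m1, m2, m3, ?_, ?_⟩
    · rintro y hy ⟨h1, h2⟩
      have : y ∈ W := ⟨hy, hgs.trans (EReal.coe_lt_coe_iff.2 (hx1.trans h1)),
        EReal.coe_lt_coe_iff.1 h2⟩
      have := le_csSup hWb this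
      linarith
    · obtain ⟨x, h1, h2, h3⟩ := (hm a).2 le_rfl
      have : x ∈ W := ⟨gen_mono hG (Nat.lt_succ_iff.1 hlt) h1, h2, EReal.coe_lt_coe_iff.1 h3⟩
      exact ⟨x, h1, h2, (le_csSup hWb this).trans hx1.le⟩
  · obtain ⟨x, hx, hgx, hxh⟩ := (hm a).2 le_rfl
    have hno : ∀ y ∈ prev F a, g < (y : EReal) → ¬ (y : EReal) < h := by
      intro y hy h1 h2
      cases a with
      | zero => exact hy
      | succ a =>
        have := (hm a).1 ⟨y, hy, h1, h2⟩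
        omega
    obtain ⟨u, hgu, hux⟩ := EReal.lt_iff_exists_real_btwn.1 hgx
    obtain ⟨v, hxv, hvh⟩ := EReal.lt_iff_exists_real_btwn.1 hxh
    rw [EReal.coe_lt_coe_iff] at hux hxv
    rcases lim_side (hG.lim a x hx) with hs | hs
    · obtain ⟨z1, z2, z3, h12, h23, hx1, h3, m1, m2, m3⟩ := three_right hxv hs
      have hg1 : g < (z1 : EReal) := hgx.trans (EReal.coe_lt_coe_iff.2 hx1)
      exact ⟨z1, z2, z3, h12, h23, hg1, (EReal.coe_lt_coe_iff.2 h3).trans hvh, m1, m2, m3,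
        fun y hy h => hno y hy (hg1.trans (EReal.coe_lt_coe_iff.2 h.1)) h.2,
        ⟨z1, m1.2.1, hg1, le_rfl⟩⟩
    · obtain ⟨z1, z2, z3, h12, h23, hu1, h3, m1, m2, m3⟩ := three_left hux hs
      have hg1 : g < (z1 : EReal) := hgu.trans (EReal.coe_lt_coe_iff.2 hu1)
      exact ⟨z1, z2, z3, h12, h23, hg1, (EReal.coe_lt_coe_iff.2 h3).trans hxh, m1, m2, m3,
        fun y hy h => hno y hy (hg1.trans (EReal.coe_lt_coe_iff.2 h.1)) h.2,
        ⟨z1, m1.2.1, hg1, le_rfl⟩⟩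

lemma ext_right (hG : Gen S N D F) {g h : EReal} {a b : ℕ} (hab : a ≤ b)
    (hgh : g < h) (hm : ∀ m, Meets (F m) g h ↔ a ≤ m) (hT : h = ⊤ → b = 0)
    (hh : ∀ m, ∀ x ∈ F m, (x : EReal) = h → b ≤ m) (c : ℕ∞) (hc : (b : ℕ∞) ≤ c) :
    ∃ k ∈ N ∪ D, g < (k : EReal) ∧ (k : EReal) < h ∧ (∀ m : ℕ, k ∈ F m ↔ c ≤ (m : ℕ∞)) ∧
      (∀ m, Meets (F m) g (k : EReal) ↔ a ≤ m) ∧ (∀ m, Meets (F m) (k : EReal) h ↔ b ≤ m) := by
  obtain ⟨z1, z2, z3, h12, h23, hg1, h3h, m1, m2, m3, hno, y, hy, hgy, hy1⟩ :=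
    three_points hG hab hgh hm hT hh
  have key : ∃ k ∈ N ∪ D, z1 < k ∧ k < z3 ∧ ∀ m : ℕ, k ∈ F m ↔ c ≤ (m : ℕ∞) := by
    induction c using ENat.recTopCoe with
    | top =>
      obtain ⟨k, hk, h1, h2⟩ := hG.denseD.exists_between (h12.trans h23)
      refine ⟨k, Or.inr hk, h1, h2, fun m => ?_⟩
      constructor
      · intro h
        refine absurd ?_ (hG.disjD k hk)
        rw [← hG.union]
        exact mem_iUnion.2 ⟨m, h⟩
      · intro h
        exact absurd h (by simp)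
    | coe c =>
      have hbc : b ≤ c := by exact_mod_cast hc
      rcases hbc.lt_or_eq with hlt | rfl
      · obtain ⟨c', rfl⟩ : ∃ c', c = c' + 1 := ⟨c - 1, by omega⟩
        have hz : z2 ∈ F c' := gen_mono hG (Nat.lt_succ_iff.1 hlt) m2.2.1
        obtain ⟨⟨k, hk, h1, h2⟩, -⟩ := hG.two c' z2 hz (z2 - z1) (by linarith)
        refine ⟨k, Or.inl hk.1, by linarith, by linarith, fun m => ?_⟩
        constructor
        · intro h
          by_contra hcon
          have : m ≤ c' := by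
            have : ¬ c' + 1 ≤ m := fun h' => hcon (by exact_mod_cast h')
            omega
          exact hk.2.2 (gen_mono hG this h)
        · intro h
          have : c' + 1 ≤ m := by exact_mod_cast h
          exact gen_mono hG this hk.2.1
      · refine ⟨z2, Or.inl m2.1, h12, h23, fun m => ?_⟩
        constructor
        · intro h
          by_contra hcon
          have : m < b := by
            have : ¬ b ≤ m := fun h' => hcon (by exact_mod_cast h')
            omega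
          exact m2.2.2 (sub_prev hG this h)
        · intro h
          have : b ≤ m := by exact_mod_cast h
          exact gen_mono hG this m2.2.1
  obtain ⟨k, hk, h1k, hk3, hlev⟩ := key
  have hgk : g < (k : EReal) := hg1.trans (EReal.coe_lt_coe_iff.2 h1k)
  have hkh : (k : EReal) < h := (EReal.coe_lt_coe_iff.2 hk3).trans h3h
  refine ⟨k, hk, hgk, hkh, hlev, fun m => ⟨?_, ?_⟩, fun m => ⟨?_, ?_⟩⟩
  · rintro ⟨x, hx, h1, h2⟩
    exact (hm m).1 ⟨x, hx, h1, h2.trans hkh⟩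
  · intro h
    exact ⟨y, gen_mono hG h hy, hgy, EReal.coe_lt_coe_iff.2 (lt_of_le_of_lt hy1 h1k)⟩
  · rintro ⟨x, hx, h1, h2⟩
    by_contra hcon
    have h4 : x ∈ prev F b := sub_prev hG (by omega) hx
    exact hno x h4 ⟨h1k.trans (EReal.coe_lt_coe_iff.1 h1), h2⟩
  · intro h
    exact ⟨z3, gen_mono hG h m3.2.1, EReal.coe_lt_coe_iff.2 hk3, h3h⟩

/-- reflection -/
def ng (A : Set ℝ) : Set ℝ := (fun x => -x) ⁻¹' A

lemma two_ng {M : Set ℝ} {x : ℝ} (h : Two M (-x)) : Two (ng M) x := by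
  intro ε hε
  obtain ⟨⟨z, hz, h1, h2⟩, w, hw, h3, h4⟩ := h ε hε
  refine ⟨⟨-w, ?_, by linarith, by linarith⟩, -z, ?_, by linarith, by linarith⟩
  · show - -w ∈ M
    rwa [neg_neg]
  · show - -z ∈ M
    rwa [neg_neg]

lemma lim_ng {M : Set ℝ} {x : ℝ} (h : Lim M (-x)) : Lim (ng M) x := by
  intro ε hε
  obtain ⟨z, hz, h1, h2⟩ := h ε hε
  refine ⟨-z, ?_, ?_, ?_⟩
  · show - -z ∈ M
    rwa [neg_neg]
  · intro h
    exact h1 (by rw [← h, neg_neg])
  · rw [show -z - x = -(z - -x) by ring, abs_neg]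
    exact h2

lemma prev_ng (n : ℕ) : prev (fun n => ng (F n)) n = ng (prev F n) := by
  cases n with
  | zero => rfl
  | succ n => rfl

lemma countable_ng {A : Set ℝ} (h : A.Countable) : (ng A).Countable :=
  h.preimage neg_injective

lemma dense_ng {A : Set ℝ} (h : Dense A) : Dense (ng A) := by
  have := h.preimage (Homeomorph.neg ℝ).isOpenMap
  exact this

lemma gen_ng (hG : Gen S N D F) : Gen (ng S) (ng N) (ng D) (fun n => ng (F n)) where
  closed n := (hG.closed n).preimage continuous_neg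
  mono n x hx := hG.mono n hx
  union := by
    rw [← hG.union]
    ext x
    simp [ng]
  countN := countable_ng hG.countN
  countD := countable_ng hG.countD
  subN x hx := hG.subN hx
  disjD x hx h := hG.disjD _ hx h
  denseD := dense_ng hG.denseD
  denseN := dense_ng hG.denseN
  unb R := by
    obtain ⟨⟨x, hx, h1⟩, y, hy, h2⟩ := hG.unb (-R)
    refine ⟨⟨-y, ?_, by linarith⟩, -x, ?_, by linarith⟩
    · show - -y ∈ F 0
      rwa [neg_neg]
    · show - -x ∈ F 0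
      rwa [neg_neg]
  lim n x hx := by
    rw [prev_ng]
    exact lim_ng (hG.lim n (-x) hx)
  two n x hx := two_ng (hG.two n (-x) hx)
  twoN n x hx hN := two_ng (hG.twoN n (-x) hx hN)

lemma meets_ng {A : Set ℝ} {g h : EReal} : Meets (ng A) (-h) (-g) ↔ Meets A g h := by
  constructor
  · rintro ⟨x, hx, h1, h2⟩
    refine ⟨-x, hx, ?_, ?_⟩
    · rw [EReal.coe_neg]
      exact EReal.lt_neg_comm.1 h2
    · rw [EReal.coe_neg]
      exact EReal.neg_lt_comm.1 h1
  · rintro ⟨x, hx, h1, h2⟩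
    refine ⟨-x, ?_, ?_, ?_⟩
    · show - -x ∈ A
      rwa [neg_neg]
    · rw [EReal.coe_neg]
      exact EReal.neg_lt_neg_iff.2 h2
    · rw [EReal.coe_neg]
      exact EReal.neg_lt_neg_iff.2 h1

theorem t_ext : S_ext := by
  intro S N D F hG g h hgh a b hm hB hT hg hh c hac hbc
  rcases le_total a b with hab | hab
  · rw [min_eq_left hab] at hm
    exact ext_right hG hab hgh hm hT hh c hbc
  · rw [min_eq_right hab] at hm
    have hm' : ∀ m, Meets ((fun n => ng (F n)) m) (-h) (-g) ↔ b ≤ m := fun m =>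
      meets_ng.trans (hm m)
    obtain ⟨k, hk, h1, h2, h3, h4, h5⟩ := ext_right (gen_ng hG) (g := -h) (h := -g) hab
      (EReal.neg_lt_neg_iff.2 hgh) hm' (fun e => hB (by rw [← neg_neg g, e]; rfl))
      (fun m x hx e => hg m (-x) hx (by rw [EReal.coe_neg, e, neg_neg])) c hac
    refine ⟨-k, hk, ?_, ?_, fun m => h3 m, fun m => ?_, fun m => ?_⟩
    · rw [EReal.coe_neg]
      exact EReal.lt_neg_comm.1 h2
    · rw [EReal.coe_neg]
      exact EReal.neg_lt_comm.1 h1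
    · rw [← h5 m, EReal.coe_neg]
      have := (meets_ng (A := F m) (g := g) (h := -(k : EReal)))
      rw [neg_neg] at this
      exact this.symm
    · rw [← h4 m, EReal.coe_neg]
      have := (meets_ng (A := F m) (g := -(k : EReal)) (h := h))
      rw [neg_neg] at this
      exact this.symm

end Pool.Agent.Q215.WR
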