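import Pool.Agent.Q215.WR.Stm

/-!
Back and forth for generic presentations.
-/

set_option autoImplicit false

open Set Topology Filter

namespace Pool.Agent.Q215.WR.BF

open Pool.Agent.Q215.WR

lemma gmono {S N D : Set ℝ} {F : ℕ → Set ℝ} (hG : Gen S N D F) : Monotone F :=
  monotone_nat_of_le_succ hG.mono

lemma lev {P : ℕ → Prop} (hex : ∃ m, P m) (hmono : ∀ m n, m ≤ n → P m → P n) :
    ∃ a : ℕ, ∀ m, P m ↔ a ≤ m := by
  classical
  exact ⟨Nat.find hex, fun m => ⟨fun h => Nat.find_min' hex h,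
    fun h => hmono _ _ h (Nat.find_spec hex)⟩⟩

lemma lev' {P : ℕ → Prop} (hmono : ∀ m n, m ≤ n → P m → P n) :
    ∃ c : ℕ∞, ∀ m : ℕ, P m ↔ c ≤ (m : ℕ∞) := by
  by_cases hex : ∃ m, P m
  · obtain ⟨a, ha⟩ := lev hex hmono
    exact ⟨a, fun m => (ha m).trans (by exact_mod_cast Iff.rfl)⟩
  · refine ⟨⊤, fun m => ⟨fun h => absurd ⟨m, h⟩ hex, fun h => absurd h (by simp)⟩⟩

/-- `A` has a point between `x` and `y` -/
def mt (A : Set ℝ) (x y : ℝ) : Prop := ∃ z ∈ A, x < z ∧ z < y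

lemma meets_coe {A : Set ℝ} {x y : ℝ} : Meets A (x : EReal) (y : EReal) ↔ mt A x y := by
  constructor
  · rintro ⟨z, hz, h1, h2⟩
    exact ⟨z, hz, EReal.coe_lt_coe_iff.1 h1, EReal.coe_lt_coe_iff.1 h2⟩
  · rintro ⟨z, hz, h1, h2⟩
    exact ⟨z, hz, EReal.coe_lt_coe_iff.2 h1, EReal.coe_lt_coe_iff.2 h2⟩

lemma mt_split {A : Set ℝ} {x y z : ℝ} (hxy : x < y) (hyz : y < z) :
    mt A x z ↔ mt A x y ∨ y ∈ A ∨ mt A y z := by
  constructor
  · rintro ⟨w, hw, h1, h2⟩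
    rcases lt_trichotomy w y with h | h | h
    · exact Or.inl ⟨w, hw, h1, h⟩
    · exact Or.inr (Or.inl (h ▸ hw))
    · exact Or.inr (Or.inr ⟨w, hw, h, h2⟩)
  · rintro (⟨w, hw, h1, h2⟩ | h | ⟨w, hw, h1, h2⟩)
    · exact ⟨w, hw, h1, h2.trans hyz⟩
    · exact ⟨y, h, hxy, hyz⟩
    · exact ⟨w, hw, hxy.trans h1, h2⟩

/-- finite partial isomorphisms -/
def PP (F F' : ℕ → Set ℝ) {A B : Set ℝ} (s : Set (↥A × ↥B)) : Prop :=
  ∀ p ∈ s, ∀ q ∈ s, ((p.1 : ℝ) < q.1 ↔ (p.2 : ℝ) < q.2) ∧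
    (∀ n, (p.1 : ℝ) ∈ F n ↔ (p.2 : ℝ) ∈ F' n) ∧
    ((p.1 : ℝ) < q.1 → ∀ n, mt (F n) p.1 q.1 ↔ mt (F' n) p.2 q.2)

lemma PP.swap {F F' : ℕ → Set ℝ} {A B : Set ℝ} {s : Set (↥A × ↥B)} (h : PP F F' s) :
    PP F' F (Prod.swap ⁻¹' s) := by
  intro p hp q hq
  obtain ⟨h1, h2, h3⟩ := h p.swap hp q.swap hq
  refine ⟨h1.symm, fun n => (h2 n).symm, fun h n => ?_⟩
  exact (h3 (h1.2 h) n).symm

variable {S N D : Set ℝ} {F : ℕ → Set ℝ} {S' N' D' : Set ℝ} {F' : ℕ → Set ℝ}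

lemma mem_N (hG : Gen S N D F) {x : ℝ} (hx : x ∈ N ∪ D) {m : ℕ} (hm : x ∈ F m) : x ∈ N := by
  rcases hx with h | h
  · exact h
  · exact absurd (by rw [← hG.union]; exact mem_iUnion.2 ⟨m, hm⟩) (hG.disjD x h)

lemma meets_ex (hG : Gen S N D F) {g h : EReal} (hgh : g < h) : ∃ m, Meets (F m) g h := by
  obtain ⟨u, hgu, huh⟩ := EReal.lt_iff_exists_real_btwn.1 hgh
  obtain ⟨v, huv, hvh⟩ := EReal.lt_iff_exists_real_btwn.1 huh
  rw [EReal.coe_lt_coe_iff] at huv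
  obtain ⟨z, hz, h1, h2⟩ := hG.denseN.exists_between huv
  have := hG.subN hz
  rw [← hG.union] at this
  obtain ⟨m, hm⟩ := mem_iUnion.1 this
  exact ⟨m, z, hm, hgu.trans (EReal.coe_lt_coe_iff.2 h1), (EReal.coe_lt_coe_iff.2 h2).trans hvh⟩

lemma meets_mono (hG : Gen S N D F) {g h : EReal} :
    ∀ m n, m ≤ n → Meets (F m) g h → Meets (F n) g h := by
  rintro m n hmn ⟨x, hx, h1, h2⟩
  exact ⟨x, gmono hG hmn hx, h1, h2⟩

lemma meets_bot (hG : Gen S N D F) {h : EReal} (hh : ⊥ < h) (m : ℕ) : Meets (F m) ⊥ h := by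
  obtain ⟨u, -, huh⟩ := EReal.lt_iff_exists_real_btwn.1 hh
  obtain ⟨-, x, hx, hxu⟩ := hG.unb u
  exact ⟨x, gmono hG (Nat.zero_le m) hx, EReal.bot_lt_coe x,
    (EReal.coe_lt_coe_iff.2 hxu).trans huh⟩

lemma meets_top (hG : Gen S N D F) {g : EReal} (hg : g < ⊤) (m : ℕ) : Meets (F m) g ⊤ := by
  obtain ⟨u, hgu, -⟩ := EReal.lt_iff_exists_real_btwn.1 hg
  obtain ⟨⟨x, hx, hxu⟩, -⟩ := hG.unb u
  exact ⟨x, gmono hG (Nat.zero_le m) hx, hgu.trans (EReal.coe_lt_coe_iff.2 hxu),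
    EReal.coe_lt_top x⟩

/-- points of `F m` to the left of a marked point of `F m` -/
lemma left_of (hG : Gen S N D F) {x : ℝ} (hx : x ∈ N ∪ D) {m : ℕ} (hm : x ∈ F m) {g : EReal}
    (hg : g < (x : EReal)) : Meets (F m) g (x : EReal) := by
  obtain ⟨u, hgu, hux⟩ := EReal.lt_iff_exists_real_btwn.1 hg
  rw [EReal.coe_lt_coe_iff] at hux
  obtain ⟨⟨z, hz, h1, h2⟩, -⟩ := hG.twoN m x hm (mem_N hG hx hm) (x - u) (by linarith)
  exact ⟨z, hz, hgu.trans (EReal.coe_lt_coe_iff.2 (by linarith)), EReal.coe_lt_coe_iff.2 h2⟩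

lemma right_of (hG : Gen S N D F) {x : ℝ} (hx : x ∈ N ∪ D) {m : ℕ} (hm : x ∈ F m) {h : EReal}
    (hh : (x : EReal) < h) : Meets (F m) (x : EReal) h := by
  obtain ⟨u, hxu, huh⟩ := EReal.lt_iff_exists_real_btwn.1 hh
  rw [EReal.coe_lt_coe_iff] at hxu
  obtain ⟨-, z, hz, h1, h2⟩ := hG.twoN m x hm (mem_N hG hx hm) (u - x) (by linarith)
  exact ⟨z, hz, EReal.coe_lt_coe_iff.2 h1, lt_trans (EReal.coe_lt_coe_iff.2 (by linarith)) huh⟩

lemma forth (hext : S_ext) (hG : Gen S N D F) (hG' : Gen S' N' D' F')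
    (s : Set (↥(N ∪ D) × ↥(N' ∪ D'))) (hs : s.Finite) (hP : PP F F' s) (k : ↥(N ∪ D)) :
    ∃ k' : ↥(N' ∪ D'), PP F F' (insert (k, k') s) := by
  by_cases hk : ∃ k', (k, k') ∈ s
  · obtain ⟨k', hk'⟩ := hk
    refine ⟨k', ?_⟩
    rw [insert_eq_of_mem hk']
    exact hP
  have hne : ∀ q ∈ s, (q.1 : ℝ) ≠ k := by
    intro q hq h
    refine hk ⟨q.2, ?_⟩
    have : q.1 = k := Subtype.ext h
    rw [← this]
    exact hq
  have heq : ∀ p ∈ s, ∀ q ∈ s, (p.1 : ℝ) = q.1 → (p.2 : ℝ) = q.2 := by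
    intro p hp q hq h
    have h1 := (hP p hp q hq).1
    have h2 := (hP q hq p hp).1
    rw [h] at h1 h2
    rcases lt_trichotomy (p.2 : ℝ) q.2 with h3 | h3 | h3
    · exact absurd (h1.2 h3) (lt_irrefl _)
    · exact h3
    · exact absurd (h2.2 h3) (lt_irrefl _)
  -- the lower neighbour
  have hlow : ∃ g g' : EReal, g < ((k : ℝ) : EReal) ∧
      ((g = ⊥ ∧ g' = ⊥ ∧ ∀ q ∈ s, ¬ (q.1 : ℝ) < k) ∨
        ∃ p ∈ s, (p.1 : ℝ) < k ∧ g = ((p.1 : ℝ) : EReal) ∧ g' = ((p.2 : ℝ) : EReal) ∧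
          ∀ q ∈ s, (q.1 : ℝ) < k → (q.1 : ℝ) ≤ p.1) := by
    by_cases h : {q | q ∈ s ∧ (q.1 : ℝ) < k}.Nonempty
    · obtain ⟨p, hp, hmax⟩ := Set.exists_max_image {q | q ∈ s ∧ (q.1 : ℝ) < k}
        (fun q => (q.1 : ℝ)) (hs.subset fun q hq => hq.1) h
      exact ⟨_, _, EReal.coe_lt_coe_iff.2 hp.2, Or.inr ⟨p, hp.1, hp.2, rfl, rfl,
        fun q hq hqk => hmax q ⟨hq, hqk⟩⟩⟩
    · exact ⟨⊥, ⊥, EReal.bot_lt_coe _, Or.inl ⟨rfl, rfl, fun q hq hqk => h ⟨q, hq, hqk⟩⟩⟩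
  have hupp : ∃ h h' : EReal, ((k : ℝ) : EReal) < h ∧
      ((h = ⊤ ∧ h' = ⊤ ∧ ∀ q ∈ s, ¬ (k : ℝ) < q.1) ∨
        ∃ p ∈ s, (k : ℝ) < p.1 ∧ h = ((p.1 : ℝ) : EReal) ∧ h' = ((p.2 : ℝ) : EReal) ∧
          ∀ q ∈ s, (k : ℝ) < q.1 → (p.1 : ℝ) ≤ q.1) := by
    by_cases h : {q | q ∈ s ∧ (k : ℝ) < q.1}.Nonempty
    · obtain ⟨p, hp, hmin⟩ := Set.exists_min_image {q | q ∈ s ∧ (k : ℝ) < q.1}
        (fun q => (q.1 : ℝ)) (hs.subset fun q hq => hq.1) h
      exact ⟨_, _, EReal.coe_lt_coe_iff.2 hp.2, Or.inr ⟨p, hp.1, hp.2, rfl, rfl,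
        fun q hq hqk => hmin q ⟨hq, hqk⟩⟩⟩
    · exact ⟨⊤, ⊤, EReal.coe_lt_top _, Or.inl ⟨rfl, rfl, fun q hq hqk => h ⟨q, hq, hqk⟩⟩⟩
  obtain ⟨g, g', hgk, hg⟩ := hlow
  obtain ⟨h, h', hkh, hh⟩ := hupp
  obtain ⟨a, ha⟩ := lev (meets_ex hG hgk) (meets_mono hG)
  obtain ⟨b, hb⟩ := lev (meets_ex hG hkh) (meets_mono hG)
  obtain ⟨c, hc⟩ := lev' (P := fun m => (k : ℝ) ∈ F m) fun m n hmn hm => gmono hG hmn hm
  have hac : (a : ℕ∞) ≤ c := by
    induction c using ENat.recTopCoe with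
    | top => exact le_top
    | coe c =>
      have h1 : (k : ℝ) ∈ F c := (hc c).2 le_rfl
      exact_mod_cast (ha c).1 (left_of hG k.2 h1 hgk)
  have hbc : (b : ℕ∞) ≤ c := by
    induction c using ENat.recTopCoe with
    | top => exact le_top
    | coe c =>
      have h1 : (k : ℝ) ∈ F c := (hc c).2 le_rfl
      exact_mod_cast (hb c).1 (right_of hG k.2 h1 hkh)
  have hbot : g' = ⊥ → a = 0 := by
    intro e
    rcases hg with ⟨e1, -, -⟩ | ⟨p, -, -, -, e2, -⟩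
    · have : Meets (F 0) g ((k : ℝ) : EReal) := by
        rw [e1]; exact meets_bot hG (EReal.bot_lt_coe _) 0
      exact Nat.le_zero.1 ((ha 0).1 this)
    · rw [e2] at e
      exact absurd e (EReal.coe_ne_bot _)
  have htop : h' = ⊤ → b = 0 := by
    intro e
    rcases hh with ⟨e1, -, -⟩ | ⟨p, -, -, -, e2, -⟩
    · have : Meets (F 0) ((k : ℝ) : EReal) h := by
        rw [e1]; exact meets_top hG (EReal.coe_lt_top _) 0
      exact Nat.le_zero.1 ((hb 0).1 this)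
    · rw [e2] at e
      exact absurd e (EReal.coe_ne_top _)
  have hga : ∀ m, ∀ x ∈ F' m, (x : EReal) = g' → a ≤ m := by
    intro m x hx e
    rcases hg with ⟨-, e1, -⟩ | ⟨p, hp, -, e1, e2, -⟩
    · rw [e1] at e
      exact absurd e (EReal.coe_ne_bot _)
    · rw [e2, EReal.coe_eq_coe_iff] at e
      rw [e] at hx
      have h1 := ((hP p hp p hp).2.1 m).2 hx
      have h2 := right_of hG p.1.2 h1 (h := ((k : ℝ) : EReal)) (by rw [← e1]; exact hgk)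
      rw [← e1] at h2
      exact (ha m).1 h2
  have hhb : ∀ m, ∀ x ∈ F' m, (x : EReal) = h' → b ≤ m := by
    intro m x hx e
    rcases hh with ⟨-, e1, -⟩ | ⟨p, hp, -, e1, e2, -⟩
    · rw [e1] at e
      exact absurd e (EReal.coe_ne_top _)
    · rw [e2, EReal.coe_eq_coe_iff] at e
      rw [e] at hx
      have h1 := ((hP p hp p hp).2.1 m).2 hx
      have h2 := left_of hG p.1.2 h1 (g := ((k : ℝ) : EReal)) (by rw [← e1]; exact hkh)
      rw [← e1] at h2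
      exact (hb m).1 h2
  have hgh' : g' < h' := by
    rcases hg with ⟨-, e1, -⟩ | ⟨p, hp, hpk, e1, e2, -⟩
    · rcases hh with ⟨-, e3, -⟩ | ⟨q, hq, hkq, e3, e4, -⟩
      · rw [e1, e3]; exact bot_lt_top
      · rw [e1, e4]; exact EReal.bot_lt_coe _
    · rcases hh with ⟨-, e3, -⟩ | ⟨q, hq, hkq, e3, e4, -⟩
      · rw [e2, e3]; exact EReal.coe_lt_top _
      · rw [e2, e4]
        exact EReal.coe_lt_coe_iff.2 ((hP p hp q hq).1.1 (hpk.trans hkq))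
  have hmin : ∀ m, Meets (F m) g h ↔ min a b ≤ m := by
    intro m
    constructor
    · rintro ⟨x, hx, h1, h2⟩
      rcases lt_trichotomy x (k : ℝ) with h3 | h3 | h3
      · exact min_le_of_left_le ((ha m).1 ⟨x, hx, h1, EReal.coe_lt_coe_iff.2 h3⟩)
      · rw [h3] at hx
        have := hac.trans ((hc m).1 hx)
        exact min_le_of_left_le (by exact_mod_cast this)
      · exact min_le_of_right_le ((hb m).1 ⟨x, hx, EReal.coe_lt_coe_iff.2 h3, h2⟩)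
    · intro hle
      rcases min_le_iff.1 hle with h1 | h1
      · obtain ⟨x, hx, h2, h3⟩ := (ha m).2 h1
        exact ⟨x, hx, h2, h3.trans hkh⟩
      · obtain ⟨x, hx, h2, h3⟩ := (hb m).2 h1
        exact ⟨x, hx, hgk.trans h2, h3⟩
  have hmin' : ∀ m, Meets (F' m) g' h' ↔ min a b ≤ m := by
    intro m
    rcases hg with ⟨-, e1, -⟩ | ⟨p, hp, hpk, e1, e2, -⟩
    · have h0 : a = 0 := hbot e1
      rw [h0, e1]
      refine ⟨fun _ => by simp, fun _ => ?_⟩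
      exact meets_bot hG' (by rw [← e1]; exact hgh') m
    · rcases hh with ⟨-, e3, -⟩ | ⟨q, hq, hkq, e3, e4, -⟩
      · have h0 : b = 0 := htop e3
        rw [h0, e3]
        refine ⟨fun _ => by simp, fun _ => ?_⟩
        exact meets_top hG' (by rw [← e3]; exact hgh') m
      · rw [← hmin m, e1, e2, e3, e4, meets_coe, meets_coe]
        exact ((hP p hp q hq).2.2 (hpk.trans hkq) m).symm
  obtain ⟨k', hk', hgk', hkh', hlev', ha', hb'⟩ :=
    hext S' N' D' F' hG' g' h' hgh' a b hmin' hbot htop hga hhb c hac hbc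
  have hlev : ∀ n, (k : ℝ) ∈ F n ↔ k' ∈ F' n := fun n => (hc n).trans (hlev' n).symm
  -- comparison with the old points
  have hR : ∀ q ∈ s, (k : ℝ) < q.1 → k' < (q.2 : ℝ) ∧
      ∀ n, mt (F n) k q.1 ↔ mt (F' n) k' q.2 := by
    intro q hq hkq
    rcases hh with ⟨-, -, h0⟩ | ⟨p, hp, hkp, e3, e4, hmn⟩
    · exact absurd hkq (h0 q hq)
    · have h1 : k' < (p.2 : ℝ) := by
        rw [e4] at hkh'
        exact EReal.coe_lt_coe_iff.1 hkh'
      have h2 : ∀ n, mt (F n) k p.1 ↔ mt (F' n) k' p.2 := by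
        intro n
        rw [← meets_coe, ← meets_coe, ← e3, ← e4]
        exact (hb n).trans (hb' n).symm
      rcases (hmn q hq hkq).lt_or_eq with hlt | heq'
      · have h3 := (hP p hp q hq).1.1 hlt
        refine ⟨h1.trans h3, fun n => ?_⟩
        rw [mt_split hkp hlt, mt_split h1 h3, h2 n, (hP p hp q hq).2.1 n,
          (hP p hp q hq).2.2 hlt n]
      · have h3 := heq p hp q hq heq'
        rw [← heq', ← h3]
        exact ⟨h1, h2⟩
  have hL : ∀ q ∈ s, (q.1 : ℝ) < k → (q.2 : ℝ) < k' ∧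
      ∀ n, mt (F n) q.1 k ↔ mt (F' n) q.2 k' := by
    intro q hq hkq
    rcases hg with ⟨-, -, h0⟩ | ⟨p, hp, hkp, e3, e4, hmn⟩
    · exact absurd hkq (h0 q hq)
    · have h1 : (p.2 : ℝ) < k' := by
        rw [e4] at hgk'
        exact EReal.coe_lt_coe_iff.1 hgk'
      have h2 : ∀ n, mt (F n) p.1 k ↔ mt (F' n) p.2 k' := by
        intro n
        rw [← meets_coe, ← meets_coe, ← e3, ← e4]
        exact (ha n).trans (ha' n).symm
      rcases (hmn q hq hkq).lt_or_eq with hlt | heq'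
      · have h3 := (hP q hq p hp).1.1 hlt
        refine ⟨h3.trans h1, fun n => ?_⟩
        rw [mt_split hlt hkp, mt_split h3 h1, h2 n, (hP p hp q hq).2.1 n,
          (hP q hq p hp).2.2 hlt n]
      · have h3 := heq q hq p hp heq'
        rw [heq', h3]
        exact ⟨h1, h2⟩
  refine ⟨⟨k', hk'⟩, ?_⟩
  intro p hp q hq
  rcases hp with rfl | hp
  · rcases hq with rfl | hq
    · exact ⟨by simp, hlev, fun h => absurd h (lt_irrefl _)⟩
    · refine ⟨?_, hlev, fun h n => (hR q hq h).2 n⟩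
      constructor
      · intro h
        exact (hR q hq h).1
      · intro h
        rcases lt_trichotomy (q.1 : ℝ) k with h1 | h1 | h1
        · exact absurd ((hL q hq h1).1.trans h) (lt_irrefl _)
        · exact absurd h1 (hne q hq)
        · exact h1
  · rcases hq with rfl | hq
    · refine ⟨?_, (hP p hp p hp).2.1, fun h n => (hL p hp h).2 n⟩
      constructor
      · intro h
        exact (hL p hp h).1
      · intro h
        rcases lt_trichotomy (p.1 : ℝ) k with h1 | h1 | h1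
        · exact h1
        · exact absurd h1 (hne p hp)
        · exact absurd ((hR p hp h1).1.trans h) (lt_irrefl _)
    · exact hP p hp q hq

theorem t_bf : S_bf := by
  intro hbaf hext S N D F S' N' D' F' hG hG'
  have : Countable ↥(N ∪ D) := (hG.countN.union hG.countD).to_subtype
  have : Countable ↥(N' ∪ D') := (hG'.countN.union hG'.countD).to_subtype
  obtain ⟨R, h1, h2, h3⟩ := hbaf ↥(N ∪ D) ↥(N' ∪ D') (PP F F')
    (fun p hp => absurd hp (notMem_empty _))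
    (fun s hs hP a => forth hext hG hG' s hs hP a)
    (fun s hs hP b => by
      have hfin : (Prod.swap ⁻¹' s : Set (↥(N' ∪ D') × ↥(N ∪ D))).Finite :=
        hs.preimage Prod.swap_injective.injOn
      obtain ⟨a, ha⟩ := forth hext hG' hG (Prod.swap ⁻¹' s) hfin hP.swap b
      refine ⟨a, ?_⟩
      have e : Prod.swap ⁻¹' (insert (b, a) (Prod.swap ⁻¹' s)) = insert (a, b) s := by
        ext ⟨x, y⟩
        simp only [mem_preimage, mem_insert_iff, Prod.swap_prod_mk, Prod.mk.injEq]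
        tauto
      rw [← e]
      exact ha.swap)
  have hpair : ∀ p ∈ R, ∀ q ∈ R, ((p.1 : ℝ) < q.1 ↔ (p.2 : ℝ) < q.2) ∧
      (∀ n, (p.1 : ℝ) ∈ F n ↔ (p.2 : ℝ) ∈ F' n) ∧
      ((p.1 : ℝ) < q.1 → ∀ n, mt (F n) p.1 q.1 ↔ mt (F' n) p.2 q.2) := by
    intro p hp q hq
    obtain ⟨s, hs, -, hPs⟩ := h3 {p, q} (by
      intro x hx
      rcases hx with rfl | rfl
      · exact hp
      · exact hq) (toFinite _)
    exact hPs p (hs (mem_insert _ _)) q (hs (mem_insert_of_mem _ (mem_singleton _)))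
  choose φ hφ using h1
  have hmono : StrictMono φ := by
    intro x y hxy
    exact (hpair _ (hφ x) _ (hφ y)).1.1 hxy
  have hsurj : Function.Surjective φ := by
    intro b
    obtain ⟨a, ha⟩ := h2 b
    refine ⟨a, ?_⟩
    have e1 := (hpair _ (hφ a) _ ha).1
    have e2 := (hpair _ ha _ (hφ a)).1
    apply Subtype.ext
    rcases lt_trichotomy ((φ a : ↥(N' ∪ D')) : ℝ) b with h | h | h
    · exact absurd (e1.2 h) (lt_irrefl _)
    · exact h
    · exact absurd (e2.2 h) (lt_irrefl _)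
  refine ⟨StrictMono.orderIsoOfSurjective φ hmono hsurj, ?_, ?_⟩
  · intro x n
    exact (hpair _ (hφ x) _ (hφ x)).2.1 n
  · intro x y hxy n
    exact (hpair _ (hφ x) _ (hφ y)).2.2 hxy n

end Pool.Agent.Q215.WR.BF
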