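import Pool.Agent.Q215.WR.Defs

/-!
Statements of the lemmas for the well-founded part of the Wadge order below the rationals, with
proofs in words.
-/

set_option autoImplicit false

open Set Topology Filter

namespace Pool.Agent.Q215.WR

/-- `x` is a limit point of `M` from both sides -/
def Two (M : Set ℝ) (x : ℝ) : Prop :=
  ∀ ε : ℝ, 0 < ε → (∃ z ∈ M, x - ε < z ∧ z < x) ∧ ∃ z ∈ M, x < z ∧ z < x + ε

/-- `x` is a limit point of `M` -/
def Lim (M : Set ℝ) (x : ℝ) : Prop :=
  ∀ ε : ℝ, 0 < ε → ∃ z ∈ M, z ≠ x ∧ |z - x| < ε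

/-- the previous set of a sequence -/
def prev (F : ℕ → Set ℝ) : ℕ → Set ℝ
  | 0 => ∅
  | n + 1 => F n

/-- generic presentations of an `F_σ` set `S` with a countable set `N` of marked points in `S` and
a countable set `D` of marked points outside -/
structure Gen (S N D : Set ℝ) (F : ℕ → Set ℝ) : Prop where
  closed : ∀ n, IsClosed (F n)
  mono : ∀ n, F n ⊆ F (n + 1)
  union : (⋃ n, F n) = S
  countN : N.Countable
  countD : D.Countable
  subN : N ⊆ S
  disjD : ∀ x ∈ D, x ∉ S
  denseD : Dense D
  denseN : Dense N
  unb : ∀ R : ℝ, (∃ x ∈ F 0, R < x) ∧ ∃ x ∈ F 0, x < R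
  lim : ∀ n, ∀ x ∈ F n, Lim (N ∩ (F n \ prev F n)) x
  two : ∀ n, ∀ x ∈ F n, Two (N ∩ (F (n + 1) \ F n)) x
  twoN : ∀ n, ∀ x ∈ F n, x ∈ N → Two (F n) x

/-- `F` has a point strictly between `g` and `h` -/
def Meets (F : Set ℝ) (g h : EReal) : Prop := ∃ x ∈ F, g < (x : EReal) ∧ (x : EReal) < h

/-- **S_baf** (abstract back and forth). Build by recursion finite sets `s_0 = ∅ ⊆ s_1 ⊆ …` with
`P`, adding alternately a pair with prescribed first and second coordinate (enumerate `α` and `β`,
if nonempty); `R` is the union. -/
def S_baf : Prop :=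
  ∀ (α β : Type) [Countable α] [Countable β] (P : Set (α × β) → Prop), P ∅ →
    (∀ s, s.Finite → P s → ∀ a, ∃ b, P (insert (a, b) s)) →
    (∀ s, s.Finite → P s → ∀ b, ∃ a, P (insert (a, b) s)) →
    ∃ R : Set (α × β), (∀ a, ∃ b, (a, b) ∈ R) ∧ (∀ b, ∃ a, (a, b) ∈ R) ∧
      ∀ t, t ⊆ R → t.Finite → ∃ s, t ⊆ s ∧ s.Finite ∧ P s

/-- **S_ext** (extension property). Put `n = min a b`. First `a = n ≤ b`.
If `b = n`: take `x ∈ F n` between `g` and `h`; by `lim` there are points of
`N ∩ (F n \ prev F n)` arbitrarily near `x` on one side, hence three points `z1 < z2 < z3` of this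
set between `g` and `h`.
If `b > n`: then `h ≠ ⊤` (as `b ≠ 0`) and `h ∉ F (b - 1)`; the set of the points of `F (b - 1)`
between `g` and `h` is nonempty (it contains those of `F n`), bounded by `h`, so its supremum `x`
is a point of `F (b - 1)` with `g < x < h`. By `two` (for `b - 1`) there are points
`z1 < z2 < z3` of `N ∩ (F b \ F (b - 1))` in `(x, h)` (choose `z3` first, then `z2` between `x`
and `z3`, then `z1`).
In both cases: `z1, z2, z3 ∈ N ∩ (F b \ prev F b)`, no point of `prev F b` lies between `z1`
and `h`, and `F n` has a point `> g` and `≤ z1`.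
Choose `k` in `[z1, z3)` as follows. If `c = b`: `k = z2`. If `c > b` is finite: `z2` is in
`F (c - 1)`, so by `two` there is `k ∈ N ∩ (F c \ F (c - 1))` with `z1 < k < z2`. If `c = ⊤`:
`k ∈ D` with `z1 < k < z3` (`k` is in no `F m`). Then the level of `k` is `c` (by monotonicity),
`F n` has a point between `g` and `k` and `prev F n` has none (`min a b ≤ m` fails for `m < n`),
`z3` is in `F b` and between `k` and `h`, and `prev F b` has no point between `k` and `h`.
The case `b = n < a` is symmetric (infimum; here `g ≠ ⊥`, `g ∉ F (a - 1)`, points to the left of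
`x`). Either copy the proof or apply the first case to the reflected system
(`x ↦ -x`, `EReal` negation). -/
def S_ext : Prop :=
  ∀ (S N D : Set ℝ) (F : ℕ → Set ℝ), Gen S N D F → ∀ g h : EReal, g < h → ∀ a b : ℕ,
    (∀ m, Meets (F m) g h ↔ min a b ≤ m) → (g = ⊥ → a = 0) → (h = ⊤ → b = 0) →
    (∀ m, ∀ x ∈ F m, (x : EReal) = g → a ≤ m) → (∀ m, ∀ x ∈ F m, (x : EReal) = h → b ≤ m) →
    ∀ c : ℕ∞, (a : ℕ∞) ≤ c → (b : ℕ∞) ≤ c →
      ∃ k ∈ N ∪ D, g < (k : EReal) ∧ (k : EReal) < h ∧ (∀ m : ℕ, k ∈ F m ↔ c ≤ (m : ℕ∞)) ∧
        (∀ m, Meets (F m) g (k : EReal) ↔ a ≤ m) ∧ (∀ m, Meets (F m) (k : EReal) h ↔ b ≤ m)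

/-- the conclusion of `S_bf` -/
def C_bf : Prop :=
  ∀ (S N D : Set ℝ) (F : ℕ → Set ℝ) (S' N' D' : Set ℝ) (F' : ℕ → Set ℝ), Gen S N D F →
    Gen S' N' D' F' → ∃ φ : ↥(N ∪ D) ≃o ↥(N' ∪ D'),
      (∀ (x : ↥(N ∪ D)) (n : ℕ), (x : ℝ) ∈ F n ↔ ((φ x : ↥(N' ∪ D')) : ℝ) ∈ F' n) ∧
      ∀ (x y : ↥(N ∪ D)), x < y → ∀ n : ℕ,
        ((∃ z ∈ F n, (x : ℝ) < z ∧ z < (y : ℝ)) ↔
          ∃ z ∈ F' n, ((φ x : ↥(N' ∪ D')) : ℝ) < z ∧ z < ((φ y : ↥(N' ∪ D')) : ℝ))

/-- **S_bf**. Apply `S_baf` with `α = ↥(N ∪ D)`, `β = ↥(N' ∪ D')` and `P s`: for all `p, q ∈ s`: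
`p.1 < q.1 ↔ p.2 < q.2`; `p.1 ∈ F n ↔ p.2 ∈ F' n` for all `n`; and if `p.1 < q.1` then for all
`n`, `F n` has a point between `p.1` and `q.1` iff `F' n` has a point between `p.2` and `q.2`.
Forth: given finite `s` with `P s` and a new `k` (not a first coordinate; otherwise take the same
pair). Let `g` be the largest first coordinate below `k` (or `⊥`), `h` the smallest one above `k`
(or `⊤`), `g', h'` the partners. Let `a` be the least `m` with `Meets (F m) g k` (exists:
if `g = ⊥` by `unb`, then `a = 0`; otherwise there is a point of `N` between, `N ⊆ S`), `b` the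
least `m` with `Meets (F m) k h`, `c` the least `m` with `k ∈ F m`, or `⊤` if there is none
(then `k ∈ D`). Then `a ≤ c`: if `k ∈ F c` then `k ∈ N` (`D` is disjoint from `S`), so by `twoN`
`F c` has points `< k` arbitrarily near `k`. In the same way `b ≤ c`; and `a ≤ m` if `g ∈ F m`
(then `g ∈ N`), `b ≤ m` if `h ∈ F m`. `Meets (F m) g h ↔ min a b ≤ m`: a point of `F m` between
`g` and `h` is `< k`, `> k` or `= k`, and in the last case `c ≤ m`, `a ≤ m`. These statements
transfer to `g', h'` (for `g = ⊥` or `h = ⊤` both sides `Meets` are true by `unb` and `mono`), so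
`S_ext` for the primed system gives `k'`. For another pair `p` of `s`, e.g. `p.1 < g`:
`F m` has a point between `p.1` and `k` iff it has one between `p.1` and `g` or `g ∈ F m` or it has
one between `g` and `k`. Back: symmetric. From the relation `R` one gets the order isomorphism
(`P` for two-element sets shows that `R` is the graph of a strictly monotone bijection). -/
def S_bf : Prop := S_baf → S_ext → C_bf

/-- the conclusion of `S_iso` -/
def C_iso : Prop :=
  ∀ (S N D : Set ℝ) (F : ℕ → Set ℝ) (S' N' D' : Set ℝ) (F' : ℕ → Set ℝ), Gen S N D F →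
    Gen S' N' D' F' → ∃ Φ : ℝ ≃o ℝ, (∀ x, x ∈ S ↔ Φ x ∈ S') ∧ (∀ x, x ∈ N ↔ Φ x ∈ N') ∧
      ∀ x, x ∈ D ↔ Φ x ∈ D'

/-- **S_iso**. `N ∪ D` and `N' ∪ D'` are dense in `ℝ`; the order isomorphism `φ` between them
extends to an order isomorphism `Φ` of `ℝ` (`Φ x = sSup` of the `φ g`, `g ≤ x`; the same for the
inverse). `Φ g = φ g` for `g` in `N ∪ D`. For `x` not in `N ∪ D` (then `Φ x` is not in `N' ∪ D'`):
`x ∈ F n` iff for all `g < x < h` in `N ∪ D` the set `F n` has a point between `g` and `h`
(`F n` closed, `N ∪ D` dense), so `x ∈ F n ↔ Φ x ∈ F' n`. Unions give `S`. For `g ∈ N ∪ D`: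
`g ∈ N` iff `g` is in some `F n`, iff `φ g ∈ N'`. -/
def S_iso : Prop := C_bf → C_iso

/-- small pieces everywhere -/
def Pieces (S T N0 : Set ℝ) : Prop :=
  ∀ u v : ℝ, u < v → ∃ M : Set ℝ, M.Countable ∧ M.Nonempty ∧ M ⊆ T ∧ (∀ x ∈ M, Two M x) ∧
    closure M ⊆ S ∧ closure M ⊆ Ioo u v ∧ ∀ x ∈ closure M, x ∉ N0

/-- **S_step**. For `n ≥ 1` and an integer `k` call the pair `(n, k)` good if the closed interval
`[(k - 1) / 2 ^ n, (k + 2) / 2 ^ n]` is disjoint from `H` and
`[(k - 5) / 2 ^ n, (k + 6) / 2 ^ n]` meets `H`; call `(0, k)` good if `[k, k + 1]` is disjoint from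
`H`. For good `(n, k)` choose by `Pieces` a set `M(n,k)` with closure in
`(k / 2 ^ n, (k + 1) / 2 ^ n)`. Let `M` be the union of the `M(n,k)` over all good pairs, `F` the
union of `H` and the closures of the `M(n,k)`. `F` is closed: if `x ∉ H`, let `δ > 0` be smaller
than the distance of `x` to `H`; only finitely many good pairs have an interval
`[k / 2 ^ n, (k + 1) / 2 ^ n]` that meets `(x - δ / 2, x + δ / 2)` (for `n ≥ 1` such an interval
has distance at most `5 / 2 ^ n` from `H`, so `6 / 2 ^ n ≥ δ / 2`, hence finitely many `n`, and for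
each `n` finitely many `k`), so near `x` the set `F` is a finite union of closed sets.
`Two M x` for `x ∈ M`: clear. For `x ∈ F \ H`, `x` is in the closure of some `M(n,k)`, and it is a
limit point of it (if `x` is in it by `Two`). For `x ∈ H` and `ε > 0`: there is `y ∈ D` (so
`y ∉ H`) with `x < y < x + ε`; let `u = sSup (H ∩ [x, y])`, so `u ∈ H`, `u < y` and `(u, y]` is
disjoint from `H`. Choose `n ≥ 1` with `12 / 2 ^ n < y - u` and `k = ⌊u * 2 ^ n⌋ + 3`; the pair
`(n, k)` is good and its interval is in `(u, y)`. The left side is symmetric. `M` is unbounded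
above: given `R`, there is an integer `k > R` with `[k, k + 1]` disjoint from `H` (then take
`M(0,k)`), or `H` has a point `> R + 1` and `M` accumulates at it; same below. -/
def S_step : Prop :=
  ∀ S T N0 D : Set ℝ, Dense D → (∀ x ∈ D, x ∉ S) → Pieces S T N0 → ∀ H : Set ℝ, IsClosed H →
    H ⊆ S → ∃ F M : Set ℝ, IsClosed F ∧ H ⊆ F ∧ F ⊆ S ∧ M ⊆ T ∧ M.Countable ∧ M ⊆ F \ H ∧
      (∀ x ∈ M, Two M x) ∧ (∀ x ∈ H, Two M x) ∧ (∀ x ∈ F \ H, Lim M x) ∧ (∀ x ∈ F \ H, x ∉ N0) ∧
      ∀ R : ℝ, (∃ x ∈ M, R < x) ∧ ∃ x ∈ M, x < R

/-- the conclusion of `S_gen` -/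
def C_gen : Prop :=
  ∀ (S T N0 D : Set ℝ) (H : ℕ → Set ℝ), (∀ n, IsClosed (H n)) → (⋃ n, H n) = S →
    N0.Countable → N0 ⊆ S → T ⊆ S → D.Countable → Dense D → (∀ x ∈ D, x ∉ S) → Pieces S T N0 →
    ∃ (N : Set ℝ) (F : ℕ → Set ℝ), Gen S N D F ∧ N0 ⊆ N ∧ N ⊆ N0 ∪ T

/-- **S_gen**. By recursion with `S_step`: `(F 0, M 0)` for `H 0`, `(F (n+1), M (n+1))` for
`F n ∪ H (n+1)`; `N = N0 ∪ ⋃ M n`. `lim`: let `x ∈ F n`, `H'` the set used at stage `n`
(`H' ⊇ prev F n`). If `x ∈ H'` then `Two (M n) x`, otherwise `Lim (M n) x`; and
`M n ⊆ N ∩ (F n \ H')`. `two`: `x ∈ F n` is in the set used at stage `n + 1`. `twoN`: let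
`x ∈ F n ∩ N`. If `x ∈ N0` then `x` is in the set `H'` used at stage `n` (as `F n \ H'` misses
`N0`), so `Two (M n) x`, `M n ⊆ F n`. If `x ∈ M m`: `m > n` is impossible (`M m` is disjoint from
`F (m - 1) ⊇ F n`); `m = n`: `Two (M n) x`; `m < n`: `x ∈ F (n - 1)` is in `H'`.
`denseN`: by `Pieces` there is a point of `S` in each open interval; it is in some `F n`, use
`Two (M (n+1)) x`. -/
def S_gen : Prop := S_step → C_gen

/-- **S_col** (collapsing the gaps of a closed set). Let `G` be the set of the gaps
`p = (p.1, p.2)`: `p.1, p.2 ∈ K`, `p.1 < p.2`, no point of `K` strictly between. With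
`p < p'` iff `p.2 < p'.1` it is a countable linear order (disjoint open intervals), dense and
without end points: given gaps `p < p'`, we have `p.2 < p'.1`; there is a point outside `K` in
`(p.2, p'.1)` (`interior K = ∅`), its gap `(a, b)` has `p.2 ≤ a`, `b ≤ p'.1`, and `p.2 ≠ a` since
`p.2` is a limit point of `K`. It is nonempty and has no ends as `K` is unbounded. By
`Order.iso_of_countable_dense` there is an order isomorphism `ι` onto `ℚ`. Let `q x` be the
supremum of the real numbers `ι p` for the gaps with `p.1 < x`. It is monotone, equal to `ι p` on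
`[p.1, p.2]`, so its range is dense; so it is continuous (`Monotone.continuous_of_denseRange` or
similar), unbounded on both sides, hence onto. If there is a point of `K` strictly between `x` and
`y`, then there are two different gaps meeting `(x, y)` (a point of `K` in `(x, y)` is a limit of
`K` from one side, and `interior K = ∅`), so `q x < q y`; otherwise `x, y` are in one closed
gap. -/
def S_col : Prop :=
  ∀ K : Set ℝ, IsClosed K → interior K = ∅ → (∀ R : ℝ, (∃ x ∈ K, R < x) ∧ ∃ x ∈ K, x < R) →
    (∀ x ∈ K, Lim K x) → ∃ q : ℝ → ℝ, Monotone q ∧ Continuous q ∧ Function.Surjective q ∧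
      ∀ x y, x < y → (q x = q y ↔ ∀ z ∈ K, ¬ (x < z ∧ z < y))

/-- `p` takes the value `y` on a nondegenerate interval (for monotone `p`) -/
def Flat (p : ℝ → ℝ) (y : ℝ) : Prop := ∃ a b, a < b ∧ p a = y ∧ p b = y

/-- **S_lift**. For each `y` the sets `p ⁻¹' {y}`, `p' ⁻¹' {y}` are compact intervals
`[a, b]`, `[a', b']` (monotone, continuous, onto), and if `a' < b'` then `a < b`. Let `f` map
`[a, b]` onto `[a', b']` monotonically for every `y` (affine, or constant if `a' = b'`). Then
`p' ∘ f = p`, `f` is monotone (on different fibres because `p'` is monotone) and onto, hence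
continuous. -/
def S_lift : Prop :=
  ∀ p p' : ℝ → ℝ, Monotone p → Continuous p → Function.Surjective p → Monotone p' →
    Continuous p' → Function.Surjective p' → (∀ y, Flat p' y → Flat p y) →
    ∃ f : ℝ → ℝ, Continuous f ∧ ∀ x, p' (f x) = p x

/-- **S_perf**. `X` is uncountable (nonempty, compact, without isolated points; e.g. Mathlib's
perfect set theory gives a continuous injection of `ℕ → Bool` into `X`:
`Perfect.exists_nat_bool_injection`). The Cantor space is homeomorphic to its square; the countable
set of the points mapped into `N0` meets only countably many of the disjoint copies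
`{x} × (ℕ → Bool)`, so there is a continuous injection `j` of the Cantor space into `X` whose range
`Y` is disjoint from `N0`. `Y` is compact without isolated points. The set `Z` of the points of `Y`
which are not limits of `Y` from both sides is countable (a point isolated on the right in `Y` has
a rational number in the gap on its right). Every relatively open nonempty part of `Y` is
uncountable (use the copies of the Cantor space), so `Y \ Z` is dense in `Y`. Let `M` be a
countable subset of `Y \ Z` dense in `Y \ Z`, hence in `Y`. For `x ∈ M`, `Y` has points in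
`(x, x + ε)`, so `M` has (this part of `Y` is relatively open); same on the left. -/
def S_perf : Prop :=
  ∀ X : Set ℝ, IsCompact X → X.Nonempty → (∀ x ∈ X, Lim X x) → ∀ N0 : Set ℝ, N0.Countable →
    ∃ M : Set ℝ, M.Countable ∧ M.Nonempty ∧ M ⊆ X ∧ (∀ x ∈ M, Two M x) ∧ closure M ⊆ X ∧
      ∀ x ∈ closure M, x ∉ N0

/-- a maximal interval contained in `B`, given by its end points -/
def InGap (B : Set ℝ) (p : ℝ × ℝ) : Prop :=
  p.1 < p.2 ∧ Icc p.1 p.2 ⊆ B ∧ p.1 ∈ frontier B ∧ p.2 ∈ frontier B

/-- a family of maximal intervals of `B`, each one a limit of others from both sides, with closure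
in `B` -/
def Fam (B : Set ℝ) (u v : ℝ) (G : Set (ℝ × ℝ)) : Prop :=
  G.Nonempty ∧ (∀ p ∈ G, InGap B p ∧ u < p.1 ∧ p.2 < v) ∧
    (∀ p ∈ G, ∀ ε : ℝ, 0 < ε → (∃ r ∈ G, p.1 - ε < r.1 ∧ r.2 < p.1) ∧
      ∃ r ∈ G, p.2 < r.1 ∧ r.2 < p.2 + ε) ∧
    closure (⋃ p ∈ G, Icc p.1 p.2) ⊆ B ∩ Ioo u v

/-- there are such families in every interval which meets `B` and the complement -/
def PT (B : Set ℝ) : Prop :=
  ∀ u v : ℝ, (Ioo u v ∩ B).Nonempty → (Ioo u v ∩ Bᶜ).Nonempty → ∃ G, Fam B u v G

/-- the end points of an interval in `B` are in `B`, the same for the complement -/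
def PI (B : Set ℝ) : Prop :=
  ∀ x y : ℝ, x < y → (Ioo x y ⊆ B → Icc x y ⊆ B) ∧ (Ioo x y ⊆ Bᶜ → Icc x y ⊆ Bᶜ)

/-- the boundary is unbounded on both sides -/
def Unb (B : Set ℝ) : Prop :=
  ∀ R : ℝ, (∃ x ∈ frontier B, R < x) ∧ ∃ x ∈ frontier B, x < R

/-- the complement has interior points in every interval which meets `B` and the complement -/
def OutDense (B : Set ℝ) : Prop :=
  ∀ u v : ℝ, (Ioo u v ∩ B).Nonempty → (Ioo u v ∩ Bᶜ).Nonempty → (Ioo u v ∩ interior Bᶜ).Nonempty

/-- **S_basic**. Let `A = f ⁻¹' QQ`. If the open interval is contained in `A` (in the complement),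
its image is a connected subset of the rationals (irrationals), so `f` is constant on it and, by
continuity, on the closed interval. `A` is the union of the closed sets `f ⁻¹' {q}`. The frontier
has no isolated points: if `x ∈ frontier A` and `(x - ε, x)`, `(x, x + ε)` miss the frontier, each
of them is contained in `A` or in the complement (connected), hence by (I) so are the closed
intervals; as `x` is in both, all of `[x - ε, x + ε]` is in `A` or in the complement, a
contradiction. -/
def S_basic : Prop :=
  ∀ A : Set ℝ, Red A QQ → PI A ∧ (∃ H : ℕ → Set ℝ, (∀ n, IsClosed (H n)) ∧ (⋃ n, H n) = A) ∧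
    ∀ x ∈ frontier A, Lim (frontier A) x

/-- **S_cross**. Let `B = f ⁻¹' A` and let `(u, v)` contain `x ∈ B`, `y ∉ B`; let `s < t` be `x, y`
in increasing order. Assume `f s < f t` (otherwise reflect: apply the statement to `x ↦ f (-x)` and
reflect the family). The interval `(f s, f t)` meets `A` and the complement: if it were contained
in one of them, so would be `[f s, f t]` by `PI A`. Take `GA` with `Fam A (f s) (f t) GA`. Let `GB`
be the set of all `(z0, z1)` with `s < z0 < z1 < t`, `(f z0, f z1) ∈ GA`,
`f` maps `[z0, z1]` into `[f z0, f z1]`, for every `ε > 0` there is `z ∈ (z0 - ε, z0)`,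
`s ≤ z`, with `f z < f z0` and there is `z ∈ (z1, z1 + ε)`, `z ≤ t`, with `f z1 < f z`.
(1) If `s ≤ a < b ≤ t`, `r ∈ GA`, `f a < r.1`, `r.2 < f b`, then there is `(z0, z1) ∈ GB` with
`a < z0`, `z1 < b`, `(f z0, f z1) = r`: `z0 = sSup {z ∈ [a, b] | f z < r.1}`,
`z1 = sInf {z ∈ [z0, b] | r.2 < f z}`. (2) Each `(z0, z1) ∈ GB` is an `InGap` of `B`:
`[z0, z1] ⊆ B`. `z0` is in the frontier: points of the complement of `A` accumulate at
`f z0 = r.1` from the left (it is a frontier point and `[r.1, r.2] ⊆ A`), and by the intermediate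
value theorem `f` takes all values in `(f z, f z0)` between `z` and `z0`. Same for `z1`.
(3) Limits: given `(z0, z1) ∈ GB` and `ε` take `z ∈ (z0 - ε, z0)` with `f z < f z0` and `r ∈ GA`
with `f z < r.1`, `r.2 < f z0` (`Fam` with `ε = f z0 - f z`) and apply (1) to `[z, z0]`. Same on
the right. (4) The closure of the union of the `[z0, z1]` is contained in `[s, t]` and in
`f ⁻¹'` of the closure of the union of the intervals of `GA`, which is in `A`. Nonempty by (1)
for `[s, t]`. -/
def S_cross : Prop :=
  ∀ A : Set ℝ, PI A → PT A → ∀ f : ℝ → ℝ, Continuous f → PT (f ⁻¹' A)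

/-- **S_outd**. Let `(u, v)` contain `x` with `f x ∈ A` and `y` with `f y ∉ A`. The open interval
`J` between `f x` and `f y` meets `A` and the complement (`PI A`), so there is a point of
`interior Aᶜ` in `J`; by the intermediate value theorem it is `f z` with `z` between `x` and `y`,
and `z` is in the interior of `(f ⁻¹' A)ᶜ`. -/
def S_outd : Prop :=
  ∀ A : Set ℝ, PI A → OutDense A → ∀ f : ℝ → ℝ, Continuous f → OutDense (f ⁻¹' A)

/-- the conclusion of `S_rep` -/
def C_rep : Prop :=
  ∀ B : Set ℝ, Red B QQ → PT B → Unb B →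
    ∃ (q : ℝ → ℝ) (S : Set ℝ) (H : ℕ → Set ℝ), Monotone q ∧ Continuous q ∧
      Function.Surjective q ∧ B = q ⁻¹' S ∧ (∀ n, IsClosed (H n)) ∧ (⋃ n, H n) = S ∧
      {y | Flat q y}.Countable ∧ Pieces S {y | y ∈ S ∧ Flat q y} ∅ ∧ Dense Sᶜ ∧
      (OutDense B → Dense {y | y ∉ S ∧ Flat q y}) ∧ (interior Bᶜ = ∅ → ∀ y, Flat q y → y ∈ S)

/-- **S_rep**. Let `K = frontier B`. It is closed, unbounded on both sides, without isolated points
(`S_basic`), and `interior K = ∅` (in an open interval contained in `K` there are points of `B` and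
of the complement, so by `PT` it contains a nondegenerate interval contained in `B`, whose interior
is disjoint from `K`). Let `q` be as in `S_col` and `S = q '' B`. `B = q ⁻¹' S`: if `q x = q y`,
`x < y`, then no point of `K` is strictly between, so `(x, y)` is contained in `B` or in the
complement, and by (I) the same holds for `[x, y]`. `S` is the union of the sets
`q '' (H' n ∩ [-m, m])` (compact; re-index by one natural number). `Flat` values: countable (pick
rational points in disjoint intervals). `Pieces`: given `u < v`, the preimage of `(u, v)` under `q`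
is an open interval `(u', v')` (monotone, onto) on which `q` is not constant, so it contains points
of `K`, hence meets `B` and the complement. Let `Fam B u' v' G`; put `M = {q p.1 | p ∈ G}`.
`q p.1 = q p.2` (`(p.1, p.2) ⊆ interior B`), so these are `Flat` values in `S`; `Two M`: by
continuity of `q` and strict increase: for `p, r ∈ G` with `r.2 < p.1`, `q r.1 < q p.1` since
`p.1` is in the frontier and there are members of `G` between. `closure M` is contained in the
image under `q` of the compact set `closure (⋃ p ∈ G, Icc p.1 p.2) ⊆ B ∩ Ioo u' v'`.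
`G`, so `M`, is countable as a set of `Flat` values. `Dense Sᶜ`: every open interval `(u, v)`
has preimage `(u', v')` meeting the complement of `B`. If `OutDense B`, this preimage meets
`interior Bᶜ`, and an open interval in the complement of `B` gives a `Flat` value. The last part: a
`Flat` value outside `S` gives an open interval in the complement of `B`. -/
def S_rep : Prop := S_basic → S_col → C_rep

/-- **S_src**. Let `K = frontier B`; it is nonempty (`B` is not open and closed). If `K` is
unbounded on both sides take `B' = B`. If `K` is bounded below and unbounded above, let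
`a = sInf K ∈ K`. `(-∞, a)` misses `K`, so it is contained in `B` or the complement, and by `PI`
so is `(-∞, a]`. Take `B' = g ⁻¹' B` with `g x = a + |x - a|`, and `B = h ⁻¹' B'` with
`h x = max x a`. Bounded above only: symmetric. Bounded on both sides: `a = sInf K < b = sSup K`
(`K` has no isolated points), `B' = g ⁻¹' B` for a zigzag function `g : ℝ → [a, b]` with
`g x = x` on `[a, b]` (e.g. `g x = a + |x - a - 2 * (b - a) * round ((x - a) / (2 * (b - a)))|`),
`B = h ⁻¹' B'` with `h x = max a (min b x)`. In all cases the frontier of `B'` is unbounded on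
both sides (near a point mapped by `g` to a frontier point and where `g` is locally a reflection or
a translation), `Red B' B`, `Red B B'`, and so `B'` is in the class and neither open nor closed
(if `B'` were open, so would be `B = h ⁻¹' B'`). -/
def S_src : Prop :=
  S_basic → ∀ B : Set ℝ, InD B → ∃ B' : Set ℝ, InD B' ∧ Unb B' ∧ Red B B' ∧ Red B' B

/-- **S_tgt**. The interval `(u, v)` contains a frontier point `x` of `C` (connectedness). It is a
limit point of the frontier (`S_basic`). Take `u < a < x < b < v` and `C' = g ⁻¹' C` for the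
zigzag function `g : ℝ → [a, b]`, e.g.
`g y = a + |y - 2 * (b - a) * round (y / (2 * (b - a)))|`. `g` is continuous, it is locally affine
with slope `1` or `-1` at all points not mapped to `a` or `b`, so the points `y` with `g y = x` are
frontier points of `C'`, and there are arbitrarily large and small ones. So `C'` is neither open
nor closed: a frontier of a set `C'` with `PI` whose frontier is nonempty: if `C'` were open, near
a frontier point `y` (limit of frontier points) ... simpler: `C` meets `(a, b)` in a set which is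
neither open nor closed in `(a, b)` (by `PI`: if `C ∩ (a, b)` were open in `(a, b)`, a maximal
interval of it would have an end point in `(a, b)`, which is in `C` by `PI` and then interior,
a contradiction with maximality; so `C ∩ (a, b)` would be empty or all; the same for the
complement), and `g` maps a small open interval isometrically onto `(a, b)`. If `(u, v)` has no
point of `interior Cᶜ` then `C'ᶜ` has no interior: an open interval in it contains an open
interval on which `g` is affine with slope `1` or `-1`. -/
def S_tgt : Prop :=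
  S_basic → ∀ C : Set ℝ, Red C QQ → ∀ u v : ℝ, (Ioo u v ∩ C).Nonempty → (Ioo u v ∩ Cᶜ).Nonempty →
    ∃ C' : Set ℝ, InD C' ∧ Unb C' ∧ Red C' C ∧ (Ioo u v ∩ interior Cᶜ = ∅ → interior C'ᶜ = ∅)

/-- no point of monotonicity -/
def NoMono (f : ℝ → ℝ) : Prop :=
  ∀ x δ : ℝ, 0 < δ →
    ((∃ y, x - δ < y ∧ y < x ∧ f x < f y) ∨ ∃ y, x < y ∧ y < x + δ ∧ f y < f x) ∧
    ((∃ y, x - δ < y ∧ y < x ∧ f y < f x) ∨ ∃ y, x < y ∧ y < x + δ ∧ f x < f y)

/-- **S_fun1**. `f x = ∑ 10 ^ (-n) * τ (10 ^ (4 * n) * x)` with `τ x = |x - round x|` (values in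
`[0, 1/2]`, Lipschitz constant `1`, period `1`, `τ = 0` at integers, `1/2` at half integers).
Uniformly convergent, so continuous. Given `x, δ` take `n` large, `h = 10 ^ (-4 * (n + 1))`, with
`2 * h < δ`. On `[x - 2 h, x + 2 h]` the sum of the terms `≤ n` varies by at most
`4 h ∑_{k ≤ n} 10 ^ (3 k) ≤ 4 h * 10 ^ (3 n) * 1.002 ≤ 10 ^ (-2) * 10 ^ (-(n + 1))`, the sum of the
terms `> n + 1` is between `0` and `10 ^ (-(n + 1)) / 18`, and the term `n + 1` takes the values
`0` and `10 ^ (-(n + 1)) / 2` in each of `(x - 2 h, x)`, `(x, x + 2 h)`. So there are points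
on the left and on the right whose values are at most `(0.07) * 10 ^ (-(n + 1))` above the value
`c` (`c` = value of the sum of the terms `≤ n` at `x`), and points on both sides whose values are
at least `c + 0.49 * 10 ^ (-(n + 1))`; compare with `f x`: if `f x` is smaller than
`c + 0.3 * 10 ^ (-(n + 1))` both sides have points with larger value, otherwise both sides have
points with smaller value; in both cases both alternatives hold (left for one, right for the
other). -/
def S_fun1 : Prop := ∃ f : ℝ → ℝ, Continuous f ∧ NoMono f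

/-- the conclusion of `S_fun2` -/
def C_fun2 : Prop :=
  ∃ f : ℝ → ℝ, Continuous f ∧ (∀ x y, x < y → ∃ z, x < z ∧ z < y ∧ f z ≠ f x) ∧
    ∀ (q : ℚ) (x : ℝ), f x = q → Lim (f ⁻¹' {(q : ℝ)}) x

/-- **S_fun2**. Let `f0` be as in `S_fun1`. The set `E` of the points at which `f0` has a strict
local maximum or minimum is countable (attach to such a point a rational interval in which it is
the only point with the maximal (minimal) value). Choose `c` with `f0 x + c ∉ QQ` for all `x ∈ E`
(countably many forbidden values of `c`), `f = f0 + c`. If `f x = q` is rational and `x` is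
isolated in `f ⁻¹' {q}`, then `f - q` has constant sign on `(x - δ, x)` and on `(x, x + δ)`
(intermediate value theorem); equal signs: strict local extremum, `x ∈ E`, excluded; opposite
signs: excluded by `NoMono` (first part if `f < q` on the left and `> q` on the right, second part
in the other case). `f` is not constant on an interval by `NoMono` at a point inside. -/
def S_fun2 : Prop := S_fun1 → C_fun2

/-- **S_plat** (a monotone function with prescribed constant parts). Let `w : N → (0, ∞)` be
summable. `j y = y + ∑ {w n | n ∈ N, n < y}` is strictly increasing with `j y - y` bounded,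
`j y < j (y+) ` exactly for `y ∈ N`. Let `p x = sSup {y | j y ≤ x}`. Then `p` is monotone,
`p (j y) = y` for all `y`, so it is onto, hence continuous; `p` takes the value `y` exactly on
`[j y, j (y+)]`, `j (y+) = j y + w y` for `y ∈ N` and `j y` otherwise. -/
def S_plat : Prop :=
  ∀ N : Set ℝ, N.Countable → ∃ p : ℝ → ℝ, Monotone p ∧ Continuous p ∧ Function.Surjective p ∧
    ∀ y, Flat p y ↔ y ∈ N

/-- **S_A**. Let `f` be as in `C_fun2`. For rational `a < b` and rational `q` with
`f ⁻¹' {q} ∩ (a, b)` nonempty take by `S_perf` (with `N0 = ∅`) a set `M(a,b,q)` for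
`X = closure (f ⁻¹' {q} ∩ (a', b'))` with suitable reals `a < a' < b' < b` (the interval `(a', b')`
contains a point of the level set; `X` is compact, contained in the level set and in `(a, b)`, and
has no isolated points). Let `N` be the countable union of these sets, `p` from `S_plat` for `N`,
`X0 = f ⁻¹' QQ`, `A = p ⁻¹' X0 = (f ∘ p) ⁻¹' QQ`, so `Red A QQ`; `N ⊆ X0`. `interior Aᶜ = ∅`: an
open interval `(u, v)` is mapped by `p` onto a nondegenerate interval or to a point `y ∈ N`; in the
first case `f` is not constant on it and takes a rational value; in the second case the interval is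
in `A`. `A` is not open and not closed: `Aᶜ` is nonempty (`f` is not constant, so it has an
irrational value), so `A` is not closed as `interior Aᶜ = ∅`. If `A` were open: `X0` has empty
interior (`f` not constant on intervals; an interval in `f ⁻¹' QQ` would have connected image in
the rationals); take `y ∈ X0 \ N` (exists: level sets are uncountable, or: `X0` is not a union of
...; simply: take `y ∈ N`, its fibre `[a, b]` under `p` is in `A`, open `A` contains `[a, b + ε)`,
and `p` maps it onto an interval `[y, y + ε')` with `ε' > 0` (as `b` is the last point of the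
fibre), contained in `X0`, a contradiction). `PT A`: let `(u, v)` meet `A` and the complement. Then
`p` is not constant on it and its image contains an open interval `(c, d)` such that
`p ⁻¹' (c, d) ⊆ (u, v)`, namely `c, d` the images of two points of `(u, v)`. `f` is not constant on
it, takes a rational value `q` at a point of `(c, d)`; choose rational `a < b` around this point
with `c < a`, `b < d`; `M(a,b,q)` is a set of values `y ∈ N`, and the fibres `[l, r]` of the points
`y ∈ M(a,b,q)` form the family `G`: they are in `A`, their end points are in the frontier (as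
`y` is a limit from both sides of points outside `X0`, which has empty interior), limits from both
sides by `Two` and monotonicity of `p` (for `y' < y` close to `y` the fibre of `y'` is close to
`l`, as `p x < y` for all `x < l`); the closure of their union is contained in
`p ⁻¹' (closure M)`, `closure M ⊆ f ⁻¹' {q} ∩ (a, b)`. -/
def S_A : Prop :=
  C_fun2 → S_plat → S_perf → ∃ A : Set ℝ, InD A ∧ PT A ∧ interior Aᶜ = ∅

/-- **S_B0**. Let `D0` be a countable subset of `Aᶜ` dense in `Aᶜ`, `p` from `S_plat` for `D0` and
`B = p ⁻¹' A`. `Red B A`. `B` is not open: `A` has a point `x` which is not interior; the fibre of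
`x` is one point `z` (as `x ∉ D0`); if `(z - ε, z + ε) ⊆ B` then `p` maps it onto an interval with
`x` in its interior, contained in `A`. `B` is not closed: `Aᶜ` has a non-interior point `x` with
fibre `[c, d]`; if `Bᶜ` were open it would contain `(c - ε, d + ε)`, whose image is a neighbourhood
of `x`. Suppose `A = g ⁻¹' B`, `g` continuous. `A` and `Aᶜ` are nonempty, so there are `b1 ∈ B`,
`b2 ∉ B` in the range of `g`; `p b1 ∈ A`, `p b2 ∉ A`. The open interval between `p b1` and `p b2`
contains a point of `Aᶜ` (`PI A`, else the closed interval would be in `A`), hence a point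
`d ∈ D0`; the fibre of `d` contains an open interval `(a, b)`, it is between `b1` and `b2` and
contained in `Bᶜ`. So `g ⁻¹' (a, b)` is open, nonempty (intermediate values), contained in `Aᶜ`, a
contradiction. -/
def S_B0 : Prop :=
  S_basic → S_plat → ∀ A : Set ℝ, InD A → interior Aᶜ = ∅ → ∃ B, InD B ∧ Red B A ∧ ¬ Red A B

end Pool.Agent.Q215.WR
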