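import Mathlib

/-!
Wadge reducibility on the real line below the set of the rationals: definitions.
-/

set_option autoImplicit false

open Set Topology Filter

namespace Pool.Agent.Q215.WR

/-- `Red A B`: the set `A` is the preimage of `B` under a continuous function (`A ≤ B`). -/
def Red (A B : Set ℝ) : Prop := ∃ f : ℝ → ℝ, Continuous f ∧ A = f ⁻¹' B

/-- The set of the rational numbers. -/
def QQ : Set ℝ := Set.range (fun q : ℚ => (q : ℝ))

/-- The class of the sets which are reducible to the set of the rationals and neither open nor
closed. -/
def InD (A : Set ℝ) : Prop := Red A QQ ∧ ¬ IsOpen A ∧ ¬ IsClosed A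

end Pool.Agent.Q215.WR
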