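import Pool.Agent.Q215.WR.Stm

/-!
Existence of generic presentations.
-/

set_option autoImplicit false

open Set Topology Filter

namespace Pool.Agent.Q215.WR.GEN

open Pool.Agent.Q215.WR

lemma two_mono {M M' : Set ℝ} (h : M ⊆ M') {x : ℝ} (hx : Two M x) : Two M' x := by
  intro ε hε
  obtain ⟨⟨z, hz, h1⟩, w, hw, h2⟩ := hx ε hε
  exact ⟨⟨z, h hz, h1⟩, w, h hw, h2⟩

lemma lim_mono {M M' : Set ℝ} (h : M ⊆ M') {x : ℝ} (hx : Lim M x) : Lim M' x := by
  intro ε hε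
  obtain ⟨z, hz, h1⟩ := hx ε hε
  exact ⟨z, h hz, h1⟩

lemma lim_of_two {M : Set ℝ} {x : ℝ} (hx : Two M x) : Lim M x := by
  intro ε hε
  obtain ⟨-, w, hw, h1, h2⟩ := hx ε hε
  exact ⟨w, hw, h1.ne', by rw [abs_lt]; constructor <;> linarith⟩

theorem t_gen : S_gen := by
  intro hstep S T N0 D H hHc hHU hN0c hN0S hTS hDc hDd hDS hP
  have hstep' := hstep S T N0 D hDd hDS hP
  have hHS : ∀ n, H n ⊆ S := fun n => by rw [← hHU]; exact subset_iUnion H n
  -- the step as a function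
  choose! g gM g1 g2 g3 g4 g5 g6 g7 g8 g9 g10 g11 using hstep'
  let E : ℕ → {X : Set ℝ // IsClosed X ∧ X ⊆ S} := fun n =>
    Nat.rec ⟨H 0, hHc 0, hHS 0⟩
      (fun n X => ⟨g X.1 ∪ H (n + 1), (g1 X.1 X.2.1 X.2.2).union (hHc (n + 1)),
        union_subset (g3 X.1 X.2.1 X.2.2) (hHS (n + 1))⟩) n
  set F : ℕ → Set ℝ := fun n => g (E n).1 with hF
  set M : ℕ → Set ℝ := fun n => gM (E n).1 with hM
  have hE : ∀ n, IsClosed (E n).1 ∧ (E n).1 ⊆ S := fun n => (E n).2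
  have hEs : ∀ n, (E (n + 1)).1 = F n ∪ H (n + 1) := fun n => rfl
  have hprev : ∀ n, prev F n ⊆ (E n).1 := by
    intro n
    cases n with
    | zero => exact empty_subset _
    | succ n => rw [hEs]; exact subset_union_left
  have hHE : ∀ n, H n ⊆ (E n).1 := by
    intro n
    cases n with
    | zero => exact Subset.rfl
    | succ n => rw [hEs]; exact subset_union_right
  have f1 : ∀ n, IsClosed (F n) := fun n => g1 _ (hE n).1 (hE n).2
  have f2 : ∀ n, (E n).1 ⊆ F n := fun n => g2 _ (hE n).1 (hE n).2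
  have f3 : ∀ n, F n ⊆ S := fun n => g3 _ (hE n).1 (hE n).2
  have f4 : ∀ n, M n ⊆ T := fun n => g4 _ (hE n).1 (hE n).2
  have f5 : ∀ n, (M n).Countable := fun n => g5 _ (hE n).1 (hE n).2
  have f6 : ∀ n, M n ⊆ F n \ (E n).1 := fun n => g6 _ (hE n).1 (hE n).2
  have f7 : ∀ n, ∀ x ∈ M n, Two (M n) x := fun n => g7 _ (hE n).1 (hE n).2
  have f8 : ∀ n, ∀ x ∈ (E n).1, Two (M n) x := fun n => g8 _ (hE n).1 (hE n).2
  have f9 : ∀ n, ∀ x ∈ F n \ (E n).1, Lim (M n) x := fun n => g9 _ (hE n).1 (hE n).2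
  have f10 : ∀ n, ∀ x ∈ F n \ (E n).1, x ∉ N0 := fun n => g10 _ (hE n).1 (hE n).2
  have f11 : ∀ n, ∀ R : ℝ, (∃ x ∈ M n, R < x) ∧ ∃ x ∈ M n, x < R :=
    fun n => g11 _ (hE n).1 (hE n).2
  have hmono1 : ∀ n, F n ⊆ F (n + 1) := fun n =>
    (by rw [hEs]; exact subset_union_left : F n ⊆ (E (n + 1)).1).trans (f2 (n + 1))
  have hmono : Monotone F := monotone_nat_of_le_succ hmono1
  have hU : (⋃ n, F n) = S := by
    apply Subset.antisymm (iUnion_subset f3)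
    rw [← hHU]
    exact iUnion_mono fun n => (hHE n).trans (f2 n)
  have hMN : ∀ n, M n ⊆ (N0 ∪ ⋃ n, M n) ∩ (F n \ prev F n) := by
    intro n x hx
    exact ⟨Or.inr (mem_iUnion.2 ⟨n, hx⟩), (f6 n hx).1, fun h => (f6 n hx).2 (hprev n h)⟩
  have hMF : ∀ n, M n ⊆ F n := fun n x hx => (f6 n hx).1
  have hNS : N0 ∪ ⋃ n, M n ⊆ S :=
    union_subset hN0S (iUnion_subset fun n => (hMF n).trans (f3 n))
  refine ⟨N0 ∪ ⋃ n, M n, F, ?_, subset_union_left,
    union_subset_union_right _ (iUnion_subset f4)⟩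
  refine ⟨f1, hmono1, hU, hN0c.union (countable_iUnion f5), hDc, hNS, hDS, hDd, ?_, ?_, ?_, ?_,
    ?_⟩
  · -- density
    rw [dense_iff_inter_open]
    intro U hUo hUne
    obtain ⟨x, hx⟩ := hUne
    obtain ⟨ε, hε, hb⟩ := Metric.isOpen_iff.1 hUo x hx
    obtain ⟨M0, -, hM0, -, -, hc1, hc2, -⟩ := hP (x - ε) (x + ε) (by linarith)
    obtain ⟨y, hy⟩ := hM0
    have hyS : y ∈ S := hc1 (subset_closure hy)
    have hyI : y ∈ Ioo (x - ε) (x + ε) := hc2 (subset_closure hy)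
    rw [← hU] at hyS
    obtain ⟨n, hn⟩ := mem_iUnion.1 hyS
    have hyE : y ∈ (E (n + 1)).1 := by rw [hEs]; exact Or.inl hn
    obtain ⟨-, z, hz, h1, h2⟩ := f8 (n + 1) y hyE (x + ε - y) (by linarith [hyI.2])
    refine ⟨z, hb ?_, Or.inr (mem_iUnion.2 ⟨n + 1, hz⟩)⟩
    rw [Metric.mem_ball, Real.dist_eq, abs_lt]
    constructor <;> linarith [hyI.1]
  · -- unbounded
    intro R
    obtain ⟨⟨x, hx, h1⟩, y, hy, h2⟩ := f11 0 R
    exact ⟨⟨x, hMF 0 hx, h1⟩, y, hMF 0 hy, h2⟩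
  · intro n x hx
    by_cases hxE : x ∈ (E n).1
    · exact lim_mono (hMN n) (lim_of_two (f8 n x hxE))
    · exact lim_mono (hMN n) (f9 n x ⟨hx, hxE⟩)
  · intro n x hx
    have hxE : x ∈ (E (n + 1)).1 := by rw [hEs]; exact Or.inl hx
    exact two_mono (hMN (n + 1)) (f8 (n + 1) x hxE)
  · intro n x hx hN
    by_cases hxE : x ∈ (E n).1
    · exact two_mono (hMF n) (f8 n x hxE)
    · rcases hN with hN | hN
      · exact absurd hN (f10 n x ⟨hx, hxE⟩)
      · obtain ⟨m, hm⟩ := mem_iUnion.1 hN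
        rcases lt_trichotomy m n with h | h | h
        · refine absurd ?_ hxE
          obtain ⟨k, rfl⟩ : ∃ k, n = k + 1 := ⟨n - 1, by omega⟩
          rw [hEs]
          exact Or.inl (hmono (Nat.lt_succ_iff.1 h) (hMF m hm))
        · rw [h] at hm
          exact two_mono (hMF n) (f7 n x hm)
        · refine absurd ?_ (f6 m hm).2
          obtain ⟨k, rfl⟩ : ∃ k, m = k + 1 := ⟨m - 1, by omega⟩
          rw [hEs]
          exact Or.inl (hmono (Nat.lt_succ_iff.1 h) hx)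

end Pool.Agent.Q215.WR.GEN
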