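import Pool.Agent.Q215.WR.Stm

/-!
Representation of a set with many families of intervals by a collapsing map.
-/

set_option autoImplicit false

open Set Topology Filter

namespace Pool.Agent.Q215.WR.REP

open Pool.Agent.Q215.WR

lemma frontier_meets {B : Set ℝ} {x : ℝ} (hx : x ∈ frontier B) {u v : ℝ} (h1 : u < x)
    (h2 : x < v) : (Ioo u v ∩ B).Nonempty ∧ (Ioo u v ∩ Bᶜ).Nonempty := by
  rw [frontier_eq_closure_inter_closure] at hx
  have hU : Ioo u v ∈ 𝓝 x := Ioo_mem_nhds h1 h2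
  exact ⟨mem_closure_iff_nhds.1 hx.1 _ hU, mem_closure_iff_nhds.1 hx.2 _ hU⟩

lemma no_frontier {B : Set ℝ} {x y : ℝ} (h : ∀ z ∈ frontier B, ¬ (x < z ∧ z < y)) :
    Ioo x y ⊆ B ∨ Ioo x y ⊆ Bᶜ := by
  by_contra hcon
  rw [not_or] at hcon
  obtain ⟨h1, h2⟩ := hcon
  obtain ⟨a, ha, haB⟩ := not_subset.1 h1
  obtain ⟨b, hb, hbB⟩ := not_subset.1 h2
  rw [mem_compl_iff, not_not] at hbB
  have hpc : IsPreconnected (Ioo x y) := isPreconnected_Ioo
  have hsub : Ioo x y ⊆ interior B ∪ interior Bᶜ := by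
    intro z hz
    by_contra hzn
    rw [mem_union, not_or] at hzn
    have hzf : z ∈ frontier B := by
      rw [frontier_eq_closure_inter_closure]
      rw [interior_compl, mem_compl_iff, not_not] at hzn
      refine ⟨hzn.2, ?_⟩
      rw [closure_compl]
      exact hzn.1
    exact h z hzf hz
  have hb' : b ∈ interior B := by
    rcases hsub hb with h' | h'
    · exact h'
    · exact absurd hbB (interior_subset h')
  have ha' : a ∈ interior Bᶜ := by
    rcases hsub ha with h' | h'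
    · exact absurd (interior_subset h') haB
    · exact h'
  obtain ⟨z, -, hz1, hz2⟩ := hpc (interior B) (interior Bᶜ) isOpen_interior isOpen_interior hsub
    ⟨b, hb, hb'⟩ ⟨a, ha, ha'⟩
  exact (interior_subset hz2) (interior_subset hz1)

theorem t_rep : S_rep := by
  intro hbasic hcol B hB pB uB
  obtain ⟨hPI, ⟨H', Hc', HU'⟩, hlim⟩ := hbasic B hB
  have hint : interior (frontier B) = ∅ := by
    by_contra hne
    obtain ⟨x, hx⟩ := nonempty_iff_ne_empty.2 hne
    obtain ⟨ε, hε, hb⟩ := Metric.isOpen_iff.1 isOpen_interior x hx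
    have hxK : x ∈ frontier B := interior_subset hx
    obtain ⟨h1, h2⟩ := frontier_meets hxK (show x - ε < x by linarith)
      (show x < x + ε by linarith)
    obtain ⟨G, ⟨p, hp⟩, hG1, -, -⟩ := pB _ _ h1 h2
    obtain ⟨⟨hp1, hp2, -, -⟩, hp3, hp4⟩ := hG1 p hp
    have hm : (p.1 + p.2) / 2 ∈ interior B := by
      have : Ioo p.1 p.2 ⊆ interior B :=
        interior_maximal (Ioo_subset_Icc_self.trans hp2) isOpen_Ioo
      exact this ⟨by linarith, by linarith⟩
    have hm2 : (p.1 + p.2) / 2 ∈ frontier B := by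
      refine interior_subset (hb ?_)
      rw [Metric.mem_ball, Real.dist_eq, abs_lt]
      constructor <;> linarith
    exact hm2.2 hm
  obtain ⟨q, qm, qc, qs, hq⟩ := hcol (frontier B) isClosed_frontier hint uB hlim
  -- strict increase across a frontier point
  have hstrict : ∀ x y z, x < z → z < y → z ∈ frontier B → q x < q y := by
    intro x y z h1 h2 hz
    refine lt_of_le_of_ne (qm (h1.trans h2).le) fun e => ?_
    exact (hq x y (h1.trans h2)).1 e z hz ⟨h1, h2⟩
  have hsame : ∀ x y, x < y → q x = q y → Icc x y ⊆ B ∨ Icc x y ⊆ Bᶜ := by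
    intro x y hxy e
    rcases no_frontier ((hq x y hxy).1 e) with h | h
    · exact Or.inl ((hPI x y hxy).1 h)
    · exact Or.inr ((hPI x y hxy).2 h)
  have hsame' : ∀ x y, q x = q y → y ∈ B → x ∈ B := by
    intro x y e hy
    rcases lt_trichotomy x y with h | h | h
    · rcases hsame x y h e with h' | h'
      · exact h' ⟨le_rfl, h.le⟩
      · exact absurd hy (h' ⟨h.le, le_rfl⟩)
    · rw [h]; exact hy
    · rcases hsame y x h e.symm with h' | h'
      · exact h' ⟨h.le, le_rfl⟩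
      · exact absurd hy (h' ⟨le_rfl, h.le⟩)
  have hBS : ∀ x, x ∈ B ↔ q x ∈ q '' B := by
    intro x
    constructor
    · intro hx
      exact mem_image_of_mem q hx
    · rintro ⟨y, hy, e⟩
      exact hsame' x y e.symm hy
  -- intervals
  have hiv : ∀ u v : ℝ, u < v → ∃ u' v' : ℝ, u' < v' ∧ (∃ z ∈ frontier B, u' < z ∧ z < v') ∧
      (∀ x ∈ Ioo u' v', u < q x ∧ q x < v) := by
    intro u v huv
    obtain ⟨u', hu'⟩ := qs ((2 * u + v) / 3)
    obtain ⟨v', hv'⟩ := qs ((u + 2 * v) / 3)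
    have hlt : u' < v' := by
      by_contra hcon
      have := qm (not_lt.1 hcon)
      rw [hu', hv'] at this
      linarith
    refine ⟨u', v', hlt, ?_, ?_⟩
    · by_contra hcon
      push Not at hcon
      have : q u' = q v' := (hq u' v' hlt).2 fun z hz h => by
        have := hcon z hz h.1
        linarith [h.2]
      rw [hu', hv'] at this
      linarith
    · intro x hx
      have h1 := qm hx.1.le
      have h2 := qm hx.2.le
      rw [hu'] at h1
      rw [hv'] at h2
      constructor <;> linarith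
  have hflat : ∀ p : ℝ × ℝ, InGap B p → q p.1 = q p.2 := by
    intro p hp
    refine (hq p.1 p.2 hp.1).2 fun z hz h => ?_
    have : Ioo p.1 p.2 ⊆ interior B :=
      interior_maximal (Ioo_subset_Icc_self.trans hp.2.1) isOpen_Ioo
    exact hz.2 (this h)
  refine ⟨q, q '' B, fun k => q '' (H' (Nat.unpair k).1 ∩
    Icc (-((Nat.unpair k).2 : ℝ)) ((Nat.unpair k).2 : ℝ)), qm, qc, qs, ?_, ?_, ?_, ?_, ?_, ?_, ?_,
    ?_⟩
  · ext x
    exact hBS x
  · intro k
    exact ((isCompact_Icc.inter_left (Hc' _)).image qc).isClosed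
  · ext y
    rw [mem_iUnion]
    constructor
    · rintro ⟨k, x, ⟨hx, -⟩, rfl⟩
      refine mem_image_of_mem q ?_
      rw [← HU']
      exact mem_iUnion.2 ⟨_, hx⟩
    · rintro ⟨x, hx, rfl⟩
      rw [← HU'] at hx
      obtain ⟨n, hn⟩ := mem_iUnion.1 hx
      obtain ⟨m, hm⟩ := exists_nat_ge |x|
      refine ⟨Nat.pair n m, x, ?_, rfl⟩
      rw [Nat.unpair_pair]
      exact ⟨hn, abs_le.1 hm⟩
  · refine (countable_range (fun r : ℚ => q (r : ℝ))).mono ?_
    rintro y ⟨a, b, hab, ha, hb⟩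
    obtain ⟨r, h1, h2⟩ := exists_rat_btwn hab
    refine ⟨r, ?_⟩
    have e1 := qm h1.le
    have e2 := qm h2.le
    rw [ha] at e1
    rw [hb] at e2
    exact le_antisymm e2 e1
  · intro u v huv
    obtain ⟨u', v', hlt, ⟨z, hz, hz1, hz2⟩, hx⟩ := hiv u v huv
    obtain ⟨h1, h2⟩ := frontier_meets hz hz1 hz2
    obtain ⟨G, hGne, hG1, hG2, hG3⟩ := pB u' v' h1 h2
    have hflatG : ∀ p ∈ G, Flat q (q p.1) := fun p hp =>
      ⟨p.1, p.2, (hG1 p hp).1.1, rfl, (hflat p (hG1 p hp).1).symm⟩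
    have hcomp : IsCompact (closure (⋃ p ∈ G, Icc p.1 p.2)) :=
      Metric.isCompact_of_isClosed_isBounded isClosed_closure
        ((Metric.isBounded_Ioo u' v').subset fun x hx => (hG3 hx).2)
    have hMsub : (fun p : ℝ × ℝ => q p.1) '' G ⊆ q '' closure (⋃ p ∈ G, Icc p.1 p.2) := by
      rintro _ ⟨p, hp, rfl⟩
      refine mem_image_of_mem q (subset_closure ?_)
      exact mem_biUnion hp ⟨le_rfl, (hG1 p hp).1.1.le⟩
    have hcl : closure ((fun p : ℝ × ℝ => q p.1) '' G) ⊆
        q '' closure (⋃ p ∈ G, Icc p.1 p.2) :=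
      closure_minimal hMsub (hcomp.image qc).isClosed
    refine ⟨(fun p : ℝ × ℝ => q p.1) '' G, ?_, hGne.image _, ?_, ?_, ?_, ?_, ?_⟩
    · refine (countable_range (fun r : ℚ => q (r : ℝ))).mono ?_
      rintro _ ⟨p, hp, rfl⟩
      obtain ⟨a, b, hab, ha, hb⟩ := hflatG p hp
      obtain ⟨r, h1, h2⟩ := exists_rat_btwn hab
      refine ⟨r, ?_⟩
      have e1 := qm h1.le
      have e2 := qm h2.le
      rw [ha] at e1
      rw [hb] at e2
      exact le_antisymm e2 e1
    · rintro _ ⟨p, hp, rfl⟩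
      exact ⟨mem_image_of_mem q ((hG1 p hp).1.2.1 ⟨le_rfl, (hG1 p hp).1.1.le⟩), hflatG p hp⟩
    · rintro _ ⟨p, hp, rfl⟩ ε hε
      have hp' := (hG1 p hp).1
      constructor
      · obtain ⟨δ, hδ, hc⟩ := Metric.continuous_iff.1 qc p.1 ε hε
        obtain ⟨r, hr, hr1, hr2⟩ := (hG2 p hp δ hδ).1
        have hr' := (hG1 r hr).1
        refine ⟨q r.1, ⟨r, hr, rfl⟩, ?_, ?_⟩
        · have := hc r.1 (by rw [Real.dist_eq, abs_lt]; constructor <;> linarith [hr'.1])
          rw [Real.dist_eq, abs_lt] at this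
          show q p.1 - ε < q r.1
          linarith [this.1]
        · exact hstrict r.1 p.1 r.2 hr'.1 hr2 hr'.2.2.2
      · obtain ⟨δ, hδ, hc⟩ := Metric.continuous_iff.1 qc p.2 ε hε
        obtain ⟨r, hr, hr1, hr2⟩ := (hG2 p hp δ hδ).2
        have hr' := (hG1 r hr).1
        refine ⟨q r.1, ⟨r, hr, rfl⟩, ?_, ?_⟩
        · exact hstrict p.1 r.1 p.2 hp'.1 hr1 hp'.2.2.2
        · have := hc r.1 (by rw [Real.dist_eq, abs_lt]; constructor <;> linarith [hr'.1])
          rw [Real.dist_eq, abs_lt, ← hflat p hp'] at this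
          show q r.1 < q p.1 + ε
          linarith [this.2]
    · intro y hy
      obtain ⟨x, hx', rfl⟩ := hcl hy
      exact mem_image_of_mem q (hG3 hx').1
    · intro y hy
      obtain ⟨x, hx', rfl⟩ := hcl hy
      exact hx x (hG3 hx').2
    · exact fun x _ => notMem_empty x
  · refine dense_of_exists_between fun u v huv => ?_
    obtain ⟨u', v', hlt, ⟨z, hz, hz1, hz2⟩, hx⟩ := hiv u v huv
    obtain ⟨-, w, hw, hwB⟩ := frontier_meets hz hz1 hz2
    exact ⟨q w, fun h => hwB ((hBS w).2 h), hx w hw⟩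
  · intro hO
    refine dense_of_exists_between fun u v huv => ?_
    obtain ⟨u', v', hlt, ⟨z, hz, hz1, hz2⟩, hx⟩ := hiv u v huv
    obtain ⟨h1, h2⟩ := frontier_meets hz hz1 hz2
    obtain ⟨w, hw, hwB⟩ := hO u' v' h1 h2
    obtain ⟨ε, hε, hb⟩ := Metric.isOpen_iff.1 (isOpen_interior (s := Bᶜ)) w hwB
    have hsub : Ioo (w - ε) (w + ε) ⊆ interior Bᶜ := by
      intro t ht
      refine hb ?_
      rw [Metric.mem_ball, Real.dist_eq, abs_lt]
      constructor <;> linarith [ht.1, ht.2]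
    have e : q w = q (w + ε / 2) := by
      refine (hq _ _ (by linarith)).2 fun t ht h => ?_
      have h3 : t ∈ interior Bᶜ := hsub ⟨by linarith [h.1], by linarith [h.2]⟩
      rw [interior_compl] at h3
      exact h3 ht.1
    refine ⟨q w, ⟨fun h => (interior_subset hwB) ((hBS w).2 h), w, w + ε / 2, by linarith, rfl,
      e.symm⟩, hx w hw⟩
  · rintro hO y ⟨a, b, hab, ha, hb⟩
    rcases no_frontier ((hq a b hab).1 (ha.trans hb.symm)) with h | h
    · refine ⟨(a + b) / 2, h ⟨by linarith, by linarith⟩, ?_⟩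
      have e1 := qm (show a ≤ (a + b) / 2 by linarith)
      have e2 := qm (show (a + b) / 2 ≤ b by linarith)
      rw [ha] at e1
      rw [hb] at e2
      exact le_antisymm e2 e1
    · have h3 : Ioo a b ⊆ interior Bᶜ := interior_maximal h isOpen_Ioo
      rw [hO] at h3
      exact absurd (h3 (show (a + b) / 2 ∈ Ioo a b from ⟨by linarith, by linarith⟩))
        (notMem_empty _)

end Pool.Agent.Q215.WR.REP
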