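import Pool.Agent.Q215.WR.Main
import Pool.Agent.Q215.WR.Ext
import Pool.Agent.Q215.WR.Bf
import Pool.Agent.Q215.WR.Gen
import Pool.Agent.Q215.WR.Rep
import Pool.Agent.Q213.WRCross
import Pool.Agent.Q214.WR.StepP
import Pool.Agent.Q214.WR.ColP
import Pool.Agent.Q214.WR.Perf
import Pool.Agent.Q266.WR.Iso
import Pool.Agent.Q266.WR.Basic
import Pool.Agent.Q252.WR.Tgt
import Pool.Agent.Q204.WR.Src
import Pool.Agent.Q204.WR.B0
import Pool.Agent.Q220.WR.Lift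
import Pool.Agent.Q220.WR.Fun1
import Pool.Agent.Q220.WR.Plat
import Pool.Agent.Q220.WR.Baf
import Pool.Agent.Q220.WR.Outd

/-!
Assembly of the proved lemmas.
-/

set_option autoImplicit false

namespace Pool.Agent.Q215.WR

theorem c_U0 : C_U0 :=
  main0 (REP.t_rep Q266.WR.t_basic Q214.WR.Col.col) (GEN.t_gen Q214.WR.step)
    (Q266.WR.t_iso (BF.t_bf Q220.WR.t_baf t_ext)) Q220.WR.t_lift Q214.WR.perf

theorem c_U : C_U :=
  main1 c_U0 Q266.WR.t_basic Q204.WR.t_src Q252.WR.t_tgt Q213.WRCross.t_cross Q220.WR.t_outd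

theorem final (hA : S_A) : ∃ A : Set ℝ, InD A ∧ (∃ B : Set ℝ, InD B ∧ Red B A ∧ ¬ Red A B) ∧
    (∀ B : Set ℝ, InD B → Red B A → Red A B ∨ ∀ C : Set ℝ, InD C → Red C A → Red B C) ∧
    ¬ ∃ s : ℕ → Set ℝ, s 0 = A ∧ ∀ n, InD (s n) ∧ Red (s (n + 1)) (s n) ∧
      ¬ Red (s n) (s (n + 1)) := by
  obtain ⟨A, h1, h2, h3⟩ := main2 c_U Q266.WR.t_basic Q213.WRCross.t_cross Q204.WR.t_B0
    Q220.WR.t_plat (hA (Q214.WR.fun2 Q220.WR.t_fun1) Q220.WR.t_plat Q214.WR.perf)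
  refine ⟨A, h1, h2, h3, ?_⟩
  rintro ⟨s, hs, hn⟩
  obtain ⟨i0, r0, n0⟩ := hn 0
  obtain ⟨i1, r1, n1⟩ := hn 1
  obtain ⟨i2, r2, n2⟩ := hn 2
  rw [hs] at r0 n0
  simp only [zero_add] at r0 n0
  rcases h3 (s 1) i1 r0 with h | h
  · exact n0 h
  · exact n1 (h (s (1 + 1)) i2 (red_trans r1 r0))

end Pool.Agent.Q215.WR
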