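import Pool.Agent.Q215.WR.Stm

/-!
Assembly: reductions between sets with many families of intervals.
-/

set_option autoImplicit false

open Set Topology Filter

namespace Pool.Agent.Q215.WR

theorem red_trans {A B C : Set ℝ} (h1 : Red A B) (h2 : Red B C) : Red A C := by
  obtain ⟨f, hf, rfl⟩ := h1
  obtain ⟨g, hg, rfl⟩ := h2
  exact ⟨g ∘ f, hg.comp hf, rfl⟩

theorem pieces_target {S N0 : Set ℝ} (hperf : S_perf) (h : Pieces S N0 ∅) (hc : N0.Countable) :
    Pieces S S N0 := by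
  intro u v huv
  obtain ⟨M, h1, h2, h3, h4, h5, h6, -⟩ := h u v huv
  have hb : Bornology.IsBounded (closure M) := (Metric.isBounded_Ioo u v).subset h6
  have hcomp : IsCompact (closure M) := Metric.isCompact_of_isClosed_isBounded isClosed_closure hb
  have hlim : ∀ x ∈ closure M, Lim (closure M) x := by
    intro x hx ε hε
    by_cases hxM : x ∈ M
    · obtain ⟨-, z, hz, h1, h2⟩ := h4 x hxM ε hε
      exact ⟨z, subset_closure hz, h1.ne', by rw [abs_lt]; constructor <;> linarith⟩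
    · obtain ⟨z, hz, hd⟩ := Metric.mem_closure_iff.1 hx ε hε
      refine ⟨z, subset_closure hz, fun h => hxM (h ▸ hz), ?_⟩
      rw [Real.dist_eq] at hd
      rw [abs_sub_comm]
      exact hd
  obtain ⟨M', g1, g2, g3, g4, g5, g6⟩ := hperf (closure M) hcomp h2.closure hlim N0 hc
  exact ⟨M', g1, g2, g3.trans h5, g4, g5.trans h5, g5.trans h6, g6⟩

def C_U0 : Prop :=
  ∀ B C : Set ℝ, Red B QQ → Red C QQ → PT B → PT C → Unb B → Unb C →
    (OutDense B ∨ interior Cᶜ = ∅) → Red B C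

theorem main0 (hrep : C_rep) (hgen : C_gen) (hiso : C_iso) (hlift : S_lift) (hperf : S_perf) :
    C_U0 := by
  intro B C hB hC pB pC uB uC hor
  obtain ⟨q, S, H, qm, qc, qs, qB, Hc, HU, fc, pc, dS, od, -⟩ := hrep B hB pB uB
  obtain ⟨q', S', H', qm', qc', qs', qB', Hc', HU', fc', pc', dS', -, io'⟩ := hrep C hC pC uC
  -- marks outside for the source
  have hD : ∃ D : Set ℝ, D.Countable ∧ Dense D ∧ (∀ x ∈ D, x ∉ S) ∧
      (OutDense B → ∀ x ∈ D, Flat q x) := by
    by_cases hO : OutDense B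
    · exact ⟨{y | y ∉ S ∧ Flat q y}, fc.mono fun y hy => hy.2, od hO, fun x hx => hx.1,
        fun _ x hx => hx.2⟩
    · obtain ⟨t, h1, h2, h3⟩ := dS.exists_countable_dense_subset
      exact ⟨t, h2, h3, fun x hx => h1 hx, fun h => absurd h hO⟩
  obtain ⟨D, Dc, Dd, Ds, DO⟩ := hD
  obtain ⟨N, F, hG, -, hN⟩ := hgen S {y | y ∈ S ∧ Flat q y} ∅ D H Hc HU countable_empty
    (empty_subset _) (fun y hy => hy.1) Dc Dd Ds pc
  -- the target
  obtain ⟨t, t1, t2, t3⟩ := dS'.exists_countable_dense_subset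
  have N0c : {y | y ∈ S' ∧ Flat q' y}.Countable := fc'.mono fun y hy => hy.2
  obtain ⟨N', F', hG', hN1', hN2'⟩ := hgen S' S' {y | y ∈ S' ∧ Flat q' y}
    ({y | y ∉ S' ∧ Flat q' y} ∪ t) H' Hc' HU' N0c (fun y hy => hy.1) Subset.rfl
    ((fc'.mono fun y hy => hy.2).union t2) (t3.mono subset_union_right)
    (fun x hx => hx.elim (fun h => h.1) fun h => t1 h) (pieces_target hperf pc' N0c)
  obtain ⟨Φ, f1, f2, f3⟩ := hiso S N D F S' N' _ F' hG hG'
  have hflat : ∀ y, Flat q' y → Flat (fun x => Φ (q x)) y := by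
    intro y hy
    have key : Flat q (Φ.symm y) := by
      by_cases hyS : y ∈ S'
      · have h1 : y ∈ N' := hN1' ⟨hyS, hy⟩
        have h2 : Φ.symm y ∈ N := by
          rw [f2, OrderIso.apply_symm_apply]
          exact h1
        exact ((hN h2).resolve_left (notMem_empty _)).2
      · have hO : OutDense B := by
          rcases hor with h | h
          · exact h
          · exact absurd (io' h y hy) hyS
        have h2 : Φ.symm y ∈ D := by
          rw [f3, OrderIso.apply_symm_apply]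
          exact Or.inl ⟨hyS, hy⟩
        exact DO hO _ h2
    obtain ⟨a, b, hab, ha, hb⟩ := key
    refine ⟨a, b, hab, ?_, ?_⟩
    · show Φ (q a) = y
      rw [ha, OrderIso.apply_symm_apply]
    · show Φ (q b) = y
      rw [hb, OrderIso.apply_symm_apply]
  obtain ⟨f, fcont, hf⟩ := hlift (fun x => Φ (q x)) q' (fun x y h => Φ.monotone (qm h))
    (Φ.continuous.comp qc) (Φ.surjective.comp qs) qm' qc' qs' hflat
  refine ⟨f, fcont, ?_⟩
  rw [qB, qB']
  ext x
  show q x ∈ S ↔ q' (f x) ∈ S'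
  rw [hf x]
  exact f1 (q x)

theorem inD_iff_frontier {B : Set ℝ} (h : InD B) : (frontier B).Nonempty := by
  by_contra hne
  rw [not_nonempty_iff_eq_empty] at hne
  exact h.2.1 (isClopen_iff_frontier_eq_empty.2 hne).2

theorem exists_both {B : Set ℝ} (h : InD B) :
    ∃ u v : ℝ, (Ioo u v ∩ B).Nonempty ∧ (Ioo u v ∩ Bᶜ).Nonempty := by
  have h1 : B.Nonempty := by
    by_contra hne
    rw [not_nonempty_iff_eq_empty] at hne
    exact h.2.1 (by rw [hne]; exact isOpen_empty)
  have h2 : Bᶜ.Nonempty := by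
    by_contra hne
    rw [not_nonempty_iff_eq_empty, compl_empty_iff] at hne
    exact h.2.1 (by rw [hne]; exact isOpen_univ)
  obtain ⟨x, hx⟩ := h1
  obtain ⟨y, hy⟩ := h2
  refine ⟨min x y - 1, max x y + 1, ⟨x, ⟨?_, ?_⟩, hx⟩, ⟨y, ⟨?_, ?_⟩, hy⟩⟩
  · have := min_le_left x y; linarith
  · have := le_max_left x y; linarith
  · have := min_le_right x y; linarith
  · have := le_max_right x y; linarith

def C_U : Prop :=
  ∀ B C : Set ℝ, InD B → InD C → PT B → PT C → ∀ u v : ℝ, (Ioo u v ∩ C).Nonempty →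
    (Ioo u v ∩ Cᶜ).Nonempty → (OutDense B ∨ Ioo u v ∩ interior Cᶜ = ∅) → Red B C

theorem main1 (hU : C_U0) (hbasic : S_basic) (hsrc : S_src) (htgt : S_tgt) (hcross : S_cross)
    (houtd : S_outd) : C_U := by
  intro B C hB hC pB pC u v h1 h2 hor
  obtain ⟨B', iB', uB', r1, g, hg, hgB⟩ := hsrc hbasic B hB
  obtain ⟨C', iC', uC', ⟨k, hk, hkC⟩, hint⟩ := htgt hbasic C hC.1 u v h1 h2
  have pB' : PT B' := by rw [hgB]; exact hcross B (hbasic B hB.1).1 pB g hg
  have pC' : PT C' := by rw [hkC]; exact hcross C (hbasic C hC.1).1 pC k hk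
  have hor' : OutDense B' ∨ interior C'ᶜ = ∅ := by
    rcases hor with h | h
    · left; rw [hgB]; exact houtd B (hbasic B hB.1).1 h g hg
    · right; exact hint h
  have := hU B' C' iB'.1 iC'.1 pB' pC' uB' uC' hor'
  exact red_trans r1 (red_trans this ⟨k, hk, hkC⟩)

/-- the final statement -/
theorem main2 (hU : C_U) (hbasic : S_basic) (hcross : S_cross) (hB0 : S_B0) (hplat : S_plat)
    (hA : ∃ A : Set ℝ, InD A ∧ PT A ∧ interior Aᶜ = ∅) :
    ∃ A : Set ℝ, InD A ∧ (∃ B, InD B ∧ Red B A ∧ ¬ Red A B) ∧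
      (∀ B, InD B → Red B A → Red A B ∨ ∀ C, InD C → Red C A → Red B C) := by
  obtain ⟨A, iA, pA, hint⟩ := hA
  refine ⟨A, iA, hB0 hbasic hplat A iA hint, ?_⟩
  intro B iB rB
  by_cases hO : OutDense B
  · right
    intro C iC rC
    obtain ⟨u, v, h1, h2⟩ := exists_both iC
    obtain ⟨g, hg, hgB⟩ := rB
    obtain ⟨k, hk, hkC⟩ := rC
    have pB : PT B := by rw [hgB]; exact hcross A (hbasic A iA.1).1 pA g hg
    have pC : PT C := by rw [hkC]; exact hcross A (hbasic A iA.1).1 pA k hk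
    exact hU B C iB iC pB pC u v h1 h2 (Or.inl hO)
  · left
    unfold OutDense at hO
    push Not at hO
    obtain ⟨u, v, h1, h2, h3⟩ := hO
    obtain ⟨g, hg, hgB⟩ := rB
    have pB : PT B := by rw [hgB]; exact hcross A (hbasic A iA.1).1 pA g hg
    exact hU A B iA iB pA pB u v h1 h2 (Or.inr h3)

end Pool.Agent.Q215.WR
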